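import Mathlib

set_option autoImplicit false

namespace Pool.Agent.H29.Bogo

open NumberField Height

/-- elementary inequality behind Schinzel's theorem. -/
theorem real_ineq (r : ℝ) : 2 * (|r| * |r ^ 2 - 1|) ≤ max |r| 1 ^ 4 := by
  have hr : 0 ≤ |r| := abs_nonneg r
  have hsq : |r| ^ 2 = r ^ 2 := sq_abs r
  set a := |r| with ha
  rcases le_total a 1 with h | h
  · rw [max_eq_right h, ← hsq]
    have h1 : |a ^ 2 - 1| = 1 - a ^ 2 := by
      rw [abs_sub_comm, abs_of_nonneg]; nlinarith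
    rw [h1]
    nlinarith [mul_nonneg hr (sq_nonneg (a - 1/2)), sq_nonneg (2 * a - 1), mul_nonneg hr (sub_nonneg.mpr h), mul_nonneg (mul_nonneg hr hr) (sub_nonneg.mpr h), sq_nonneg (a - 1/2), mul_nonneg (sub_nonneg.mpr h) (sub_nonneg.mpr h)]
  · rw [max_eq_left h, ← hsq]
    have h1 : |a ^ 2 - 1| = a ^ 2 - 1 := by
      rw [abs_of_nonneg]; nlinarith
    rw [h1]
    have : 0 ≤ a * (a ^ 3 - 2 * a ^ 2 + 2) := by
      apply mul_nonneg hr
      nlinarith [mul_nonneg hr (sq_nonneg (a - 4/3)), sq_nonneg (a - 4/3), sq_nonneg (a - 1)]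
    nlinarith

theorem mulHeight_lower {K : Type*} [Field K] [NumberField K] (g : K) (h0 : g ≠ 0)
    (h1 : g ≠ 1) (h2 : g ≠ -1) (hreal : ∀ φ : K →+* ℂ, (φ g).im = 0) :
    (2 : ℝ) ^ (Module.finrank ℚ K) ≤ mulHeight₁ g ^ 4 := by
  have hg2 : g ^ 2 - 1 ≠ 0 := by
    intro h
    have : (g - 1) * (g + 1) = 0 := by linear_combination h
    rcases mul_eq_zero.mp this with h | h
    · exact h1 (sub_eq_zero.mp h)
    · exact h2 (eq_neg_of_add_eq_zero_left h)
  have hy : g * (g ^ 2 - 1) ≠ 0 := mul_ne_zero h0 hg2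
  have hprod := prod_abs_eq_one hy
  have hinf : ∀ v : InfinitePlace K, 2 * v (g * (g ^ 2 - 1)) ≤ max (v g) 1 ^ 4 := by
    intro v
    obtain ⟨φ, rfl⟩ : ∃ φ : K →+* ℂ, InfinitePlace.mk φ = v := ⟨v.embedding, v.mk_embedding⟩
    rw [InfinitePlace.apply, InfinitePlace.apply]
    set r := (φ g).re with hr
    have hφ : φ g = (r : ℂ) := by
      apply Complex.ext
      · simp [hr]
      · simp [hreal φ]
    have e1 : ‖φ g‖ = |r| := by rw [hφ, Complex.norm_real, Real.norm_eq_abs]
    have e2 : ‖φ (g * (g ^ 2 - 1))‖ = |r| * |r ^ 2 - 1| := by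
      rw [map_mul, norm_mul, e1, map_sub, map_pow, map_one, hφ]
      congr 1
      rw [← Complex.ofReal_pow, ← Complex.ofReal_one, ← Complex.ofReal_sub, Complex.norm_real,
        Real.norm_eq_abs]
    rw [e1, e2]
    exact real_ineq r
  have hfin : ∀ v : FinitePlace K, v (g * (g ^ 2 - 1)) ≤ max (v g) 1 ^ 4 := by
    intro v
    have hna : v (g ^ 2 - 1) ≤ max (v (g ^ 2)) (v 1) := by
      have := FinitePlace.add_le v (g ^ 2) (-1)
      rw [← sub_eq_add_neg] at this
      refine this.trans (le_of_eq ?_)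
      congr 1
      rw [FinitePlace.coe_apply, FinitePlace.coe_apply]
      exact v.1.map_neg 1
    rw [map_mul]
    rw [map_pow, map_one] at hna
    have hm1 : (1 : ℝ) ≤ max (v g) 1 := le_max_right _ _
    have hm2 : v g ≤ max (v g) 1 := le_max_left _ _
    have hv0 : 0 ≤ v g := apply_nonneg v g
    have h3 : v (g ^ 2 - 1) ≤ max (v g) 1 ^ 2 := by
      refine hna.trans (max_le ?_ ?_)
      · gcongr
      · exact one_le_pow₀ hm1
    calc v g * v (g ^ 2 - 1) ≤ max (v g) 1 * max (v g) 1 ^ 2 := by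
          gcongr
      _ = max (v g) 1 ^ 3 := by ring
      _ ≤ max (v g) 1 ^ 4 := pow_le_pow_right₀ hm1 (by norm_num)
  rw [NumberField.mulHeight₁_eq, mul_pow]
  -- the finite part
  have hfinprod : ∏ᶠ v : FinitePlace K, v (g * (g ^ 2 - 1)) ≤
      (∏ᶠ v : FinitePlace K, max (v g) 1) ^ 4 := by
    have hs1 : (fun v : FinitePlace K => v g).HasFiniteMulSupport :=
      FinitePlace.hasFiniteMulSupport h0
    have hs : (fun v : FinitePlace K => max (v g) 1).HasFiniteMulSupport := by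
      fun_prop
    rw [finprod_pow hs]
    apply finprod_le_finprod (FinitePlace.hasFiniteMulSupport hy)
    · intro v; exact apply_nonneg v _
    · exact hs.fun_pow 4
    · intro v; exact hfin v
  have hinfprod : (2 : ℝ) ^ (Module.finrank ℚ K) *
      ∏ v : InfinitePlace K, v (g * (g ^ 2 - 1)) ^ v.mult ≤
      (∏ v : InfinitePlace K, max (v g) 1 ^ v.mult) ^ 4 := by
    rw [← InfinitePlace.sum_mult_eq, ← Finset.prod_pow_eq_pow_sum, ← Finset.prod_mul_distrib,
      ← Finset.prod_pow]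
    apply Finset.prod_le_prod
    · intro v _
      positivity
    · intro v _
      rw [← mul_pow, ← pow_mul, mul_comm v.mult 4, pow_mul]
      have := hinf v
      gcongr
  have hA : 0 ≤ ∏ v : InfinitePlace K, v (g * (g ^ 2 - 1)) ^ v.mult :=
    Finset.prod_nonneg fun v _ => by positivity
  have hB : 0 ≤ ∏ᶠ v : FinitePlace K, v (g * (g ^ 2 - 1)) :=
    finprod_nonneg fun v => apply_nonneg v _
  calc (2 : ℝ) ^ (Module.finrank ℚ K)
      = ((2 : ℝ) ^ (Module.finrank ℚ K) *
      ∏ v : InfinitePlace K, v (g * (g ^ 2 - 1)) ^ v.mult) *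
        ∏ᶠ v : FinitePlace K, v (g * (g ^ 2 - 1)) := by
        rw [mul_assoc, hprod, mul_one]
    _ ≤ _ := by
        apply mul_le_mul hinfprod hfinprod hB
        positivity

end Pool.Agent.H29.Bogo

namespace Pool.Agent.H29.Bogo

open NumberField Height IntermediateField

/-- the absolute logarithmic height in terms of the height over `ℚ⟮x⟯`. -/
theorem absLogHeight_eq {E : Type*} [Field E] [CharZero E] (x : E) (hx : IsIntegral ℚ x)
    [NumberField ℚ⟮x⟯] :
    absLogHeight₁ x = Real.log (Height.mulHeight₁ (AdjoinSimple.gen ℚ x)) /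
      (Module.finrank ℚ ℚ⟮x⟯ : ℝ) := by
  rw [absLogHeight₁, absMulHeight₁, dif_pos hx, Real.log_rpow, div_eq_inv_mul]
  exact mulHeight₁_pos _

theorem absLogHeight_lower {E : Type*} [Field E] [CharZero E] (x : E) (hx : IsIntegral ℚ x)
    (h0 : x ≠ 0) (h1 : x ≠ 1) (h2 : x ≠ -1)
    (hreal : ∀ z ∈ (minpoly ℚ x).rootSet ℂ, z.im = 0) :
    Real.log 2 / 4 ≤ absLogHeight₁ x := by
  have hfd : FiniteDimensional ℚ ℚ⟮x⟯ := adjoin.finiteDimensional hx
  have hnf : NumberField ℚ⟮x⟯ := {}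
  rw [absLogHeight_eq x hx]
  set g := AdjoinSimple.gen ℚ x with hg
  have hgx : (g : E) = x := AdjoinSimple.coe_gen ℚ x
  have hD : (0 : ℝ) < Module.finrank ℚ ℚ⟮x⟯ := by
    exact_mod_cast Module.finrank_pos
  have key := mulHeight_lower g (fun h => h0 (by rw [← hgx, h]; rfl))
    (fun h => h1 (by rw [← hgx, h]; rfl)) (fun h => h2 (by rw [← hgx, h]; simp)) (by
      intro φ
      apply hreal
      rw [Polynomial.mem_rootSet]
      refine ⟨minpoly.ne_zero hx, ?_⟩
      have : Polynomial.aeval g (minpoly ℚ x) = 0 := by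
        apply (algebraMap ℚ⟮x⟯ E).injective
        rw [← Polynomial.aeval_algebraMap_apply, map_zero]
        change Polynomial.aeval (g : E) (minpoly ℚ x) = 0
        rw [hgx, minpoly.aeval]
      have h3 := congrArg φ this
      rw [map_zero] at h3
      rw [← h3]
      have := Polynomial.aeval_algHom_apply φ.toRatAlgHom g (minpoly ℚ x)
      simpa using this)
  have hlog := Real.log_le_log (by positivity) key
  rw [Real.log_pow, Real.log_pow] at hlog
  rw [le_div_iff₀ hD]
  push_cast at hlog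
  linarith

end Pool.Agent.H29.Bogo
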