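import Mathlib

set_option autoImplicit false

namespace Pool.Agent.H29.Bogo

open NumberField Height

theorem iSup_fin_two_real (f : Fin 2 → ℝ) : ⨆ i, f i = max (f 0) (f 1) := by
  apply le_antisymm
  · apply ciSup_le
    intro i
    fin_cases i
    · exact le_max_left _ _
    · exact le_max_right _ _
  · have hb : BddAbove (Set.range f) := Set.finite_range f |>.bddAbove
    exact max_le (le_ciSup hb 0) (le_ciSup hb 1)

theorem finprod_natCast {K : Type*} [Field K] [NumberField K] (n : ℕ) (hn : n ≠ 0) :
    ∏ᶠ v : FinitePlace K, v (n : K) = ((n : ℝ) ^ (Module.finrank ℚ K))⁻¹ := by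
  rw [FinitePlace.prod_eq_inv_abs_norm (Nat.cast_ne_zero.mpr hn)]
  have : (n : K) = algebraMap ℚ K n := by simp
  rw [this, Algebra.norm_algebraMap]
  push_cast
  rw [abs_of_nonneg (by positivity)]

/-- The finite part of the height of `g = a / n`. -/
theorem finprod_max_eq {K : Type*} [Field K] [NumberField K] (g : K) (n : ℕ) (hn : n ≠ 0)
    (a : 𝓞 K) (ha : (n : K) * g = a) :
    (∏ᶠ v : FinitePlace K, max (v g) 1) *
      ((Ideal.span (Set.range ![a, (n : 𝓞 K)])).absNorm : ℝ) =
      (n : ℝ) ^ (Module.finrank ℚ K) := by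
  have hnK : (n : K) ≠ 0 := Nat.cast_ne_zero.mpr hn
  have hnO : (n : 𝓞 K) ≠ 0 := Nat.cast_ne_zero.mpr hn
  have hx : (![a, (n : 𝓞 K)] : Fin 2 → 𝓞 K) ≠ 0 := by
    intro h
    have := congrFun h 1
    simp at this
    exact hn this
  have h1 := absNorm_mul_finprod_finitePlace_eq_one hx
  have h2 : ∀ v : FinitePlace K, max (v g) 1 * v (n : K) =
      ⨆ i, v ((![a, (n : 𝓞 K)] : Fin 2 → 𝓞 K) i : K) := by
    intro v
    rw [iSup_fin_two_real]
    simp only [Matrix.cons_val_zero, Matrix.cons_val_one]
    rw [max_mul_of_nonneg _ _ (apply_nonneg v _), one_mul, ← map_mul, mul_comm g, ha]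
    simp
  have hs1 : (fun v : FinitePlace K => max (v g) 1).HasFiniteMulSupport := by
    rcases eq_or_ne g 0 with rfl | hg
    · have : (fun v : FinitePlace K => max (v (0 : K)) 1) = fun _ => 1 := by
        funext v; simp
      rw [this]
      fun_prop
    · have hs1 : (fun v : FinitePlace K => v g).HasFiniteMulSupport :=
        FinitePlace.hasFiniteMulSupport hg
      fun_prop
  have hs2 : (fun v : FinitePlace K => v (n : K)).HasFiniteMulSupport :=
    FinitePlace.hasFiniteMulSupport hnK
  have h3 : (∏ᶠ v : FinitePlace K, max (v g) 1) * ∏ᶠ v : FinitePlace K, v (n : K) =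
      ∏ᶠ v : FinitePlace K, ⨆ i, v ((![a, (n : 𝓞 K)] : Fin 2 → 𝓞 K) i : K) := by
    rw [← finprod_mul_distrib hs1 hs2]
    exact finprod_congr h2
  rw [← h3, finprod_natCast n hn] at h1
  have hpos : (0 : ℝ) < (n : ℝ) ^ (Module.finrank ℚ K) := by positivity
  field_simp at h1
  linarith

/-- The finite part of the height in an extension of number fields. -/
theorem finprod_max_algebraMap {K L : Type*} [Field K] [NumberField K] [Field L] [NumberField L]
    [Algebra K L] (g : K) :
    (∏ᶠ v : FinitePlace L, max (v (algebraMap K L g)) 1) =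
      (∏ᶠ v : FinitePlace K, max (v g) 1) ^ (Module.finrank K L) := by
  obtain ⟨n, hn, a, ha, -⟩ :=
    exists_nat_ne_zero_exists_integer_mul_eq_and_absNorm_span_eq_pow g
  have h1 := finprod_max_eq g n hn a ha
  have h2 := finprod_max_eq (algebraMap K L g) n hn (algebraMap (𝓞 K) (𝓞 L) a) (by
    have := congrArg (algebraMap K L) ha
    rw [map_mul, map_natCast] at this
    rw [this]
    rfl)
  have h3 : Ideal.span (Set.range ![algebraMap (𝓞 K) (𝓞 L) a, (n : 𝓞 L)]) =
      Ideal.map (algebraMap (𝓞 K) (𝓞 L)) (Ideal.span (Set.range ![a, (n : 𝓞 K)])) := by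
    rw [Ideal.map_span, ← Set.range_comp]
    congr 2
    funext i
    fin_cases i
    · rfl
    · simp
  rw [h3, Ideal.absNorm_algebraMap] at h2
  have h4 : Module.finrank (𝓞 K) (𝓞 L) = Module.finrank K L := by
    exact Eq.symm (IsFractionRing.finrank_eq (𝓞 K) K (𝓞 L) L)
  rw [h4] at h2
  have hne : ((Ideal.span (Set.range ![a, (n : 𝓞 K)])).absNorm : ℝ) ≠ 0 := by
    intro h
    rw [h, mul_zero] at h1
    have : (n : ℝ) ≠ 0 := Nat.cast_ne_zero.mpr hn
    exact (pow_ne_zero _ this) h1.symm
  have h5 : (n : ℝ) ^ (Module.finrank ℚ L) =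
      ((n : ℝ) ^ (Module.finrank ℚ K)) ^ (Module.finrank K L) := by
    rw [← pow_mul, Module.finrank_mul_finrank]
  rw [h5, ← h1, mul_pow] at h2
  push_cast at h2
  exact mul_right_cancel₀ (pow_ne_zero _ hne) h2


open Polynomial in
/-- Gauss-lemma estimate at one finite place: if the monic polynomial with roots `s` divides the
image of an integral polynomial `P`, then `∏ max(|r|, 1) * |lead P| ≤ 1`. -/
theorem gauss_estimate {L : Type*} [Field L] [NumberField L] (w : FinitePlace L)
    (s : Multiset L) (P : ℤ[X])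
    (hdvd : (s.map fun r => X - C r).prod ∣ P.map (algebraMap ℤ L)) :
    (s.map fun r => max (w r) 1).prod * w (P.leadingCoeff : L) ≤ 1 := by
  have hna : IsNonarchimedean (w.1 : L → ℝ) := fun x y => FinitePlace.add_le w x y
  obtain ⟨h, hh⟩ := hdvd
  have hmul : ∀ t : Multiset L, ((t.map fun r => X - C r).prod).gaussNorm w.1 1 =
      (t.map fun r => max (w r) 1).prod := by
    intro t
    induction t using Multiset.induction_on with
    | empty =>
      simp only [Multiset.map_zero, Multiset.prod_zero]
      rw [← C_1, gaussNorm_C]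
      exact map_one w.1
    | cons a t ih =>
      rw [Multiset.map_cons, Multiset.prod_cons, Multiset.map_cons, Multiset.prod_cons,
        gaussNorm_mul hna one_pos, ih]
      congr 1
      apply le_antisymm
      · obtain ⟨i, hi⟩ := exists_eq_gaussNorm w.1 1 (X - C a)
        rw [hi, one_pow, mul_one, coeff_sub, coeff_X, coeff_C]
        rcases i with _ | i
        · simp only [if_true, if_false, zero_sub, one_ne_zero]
          rw [w.1.map_neg]
          exact le_max_left _ _
        · rcases i with _ | i
          · simp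
          · simp
      · have h0 := le_gaussNorm w.1 (zero_le_one) (p := X - C a) 0
        have h1 := le_gaussNorm w.1 (zero_le_one) (p := X - C a) 1
        apply max_le
        · rw [coeff_sub, coeff_X_zero, coeff_C_zero, zero_sub, w.1.map_neg, one_pow, mul_one] at h0
          exact h0
        · simpa using h1
  have hle : (P.map (algebraMap ℤ L)).gaussNorm w.1 1 ≤ 1 := by
    obtain ⟨i, hi⟩ := exists_eq_gaussNorm w.1 1 (P.map (algebraMap ℤ L))
    rw [hi, one_pow, mul_one, coeff_map]
    have : w ((algebraMap ℤ (𝓞 L) (P.coeff i) : 𝓞 L) : L) ≤ 1 :=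
      FinitePlace.norm_embedding_eq w _ ▸ FinitePlace.norm_le_one L w.maximalIdeal _
    exact this
  rw [hh, gaussNorm_mul hna one_pos, hmul s] at hle
  have hlead : (P.leadingCoeff : L) = h.leadingCoeff := by
    have h1 : (P.map (algebraMap ℤ L)).leadingCoeff = (P.leadingCoeff : L) := by
      rw [leadingCoeff_map_of_injective (algebraMap ℤ L).injective_int]
      simp
    rw [← h1, hh, leadingCoeff_mul]
    have : ((s.map fun r => X - C r).prod).Monic :=
      monic_multiset_prod_of_monic _ _ fun a _ => monic_X_sub_C a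
    rw [this.leadingCoeff, one_mul]
  have hlg : w (P.leadingCoeff : L) ≤ h.gaussNorm w.1 1 := by
    rw [hlead]
    have := le_gaussNorm w.1 (zero_le_one) (p := h) h.natDegree
    rw [one_pow, mul_one] at this
    exact this
  refine le_trans ?_ hle
  gcongr
  apply Multiset.prod_map_nonneg
  intro r _
  positivity

open Polynomial in
/-- Upper bound for the finite part of the height of a generator of a number field in terms of
the leading coefficient of any integral polynomial which it annihilates. -/
theorem finprod_max_le {K L : Type*} [Field K] [NumberField K] [Field L] [NumberField L] (g : K)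
    (hg : Module.finrank ℚ K = (minpoly ℚ g).natDegree)
    (hsplit : ((minpoly ℚ g).map (algebraMap ℚ L)).Splits)
    (hσ : ∀ r ∈ ((minpoly ℚ g).map (algebraMap ℚ L)).roots, ∃ σ : K →ₐ[ℚ] L, σ g = r)
    (P : ℤ[X]) (hP0 : P ≠ 0)
    (hP : aeval g P = 0) :
    (∏ᶠ v : FinitePlace K, max (v g) 1) ≤ |(P.leadingCoeff : ℝ)| := by
  have hgi : IsIntegral ℚ g := Algebra.IsIntegral.isIntegral g
  set m := minpoly ℚ g with hm
  set s : Multiset L := (m.map (algebraMap ℚ L)).roots with hs
  have hmprod : m.map (algebraMap ℚ L) = (s.map fun r => X - C r).prod := by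
    have := hsplit.eq_prod_roots
    rw [(minpoly.monic hgi).map (algebraMap ℚ L) |>.leadingCoeff, C_1, one_mul] at this
    exact this
  have hcard : Multiset.card s = Module.finrank ℚ K := by
    rw [hs, ← hsplit.natDegree_eq_card_roots, natDegree_map, hg]
  have hKpos : 0 < Module.finrank ℚ K := Module.finrank_pos
  have hLpos : 0 < Module.finrank ℚ L := Module.finrank_pos
  -- the exponent
  set H : ℝ := ∏ᶠ v : FinitePlace K, max (v g) 1 with hH
  have hH0 : 0 ≤ H := finprod_nonneg fun v => by positivity
  have hroot : ∀ r ∈ s, (∏ᶠ v : FinitePlace L, max (v r) 1) ^ (Module.finrank ℚ K) =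
      H ^ (Module.finrank ℚ L) := by
    intro r hr
    obtain ⟨σ, rfl⟩ := hσ r hr
    let _ : Algebra K L := σ.toRingHom.toAlgebra
    have : IsScalarTower ℚ K L := IsScalarTower.of_algebraMap_eq fun x => (σ.commutes x).symm
    have h1 := finprod_max_algebraMap (K := K) (L := L) g
    have h2 : algebraMap K L g = σ g := rfl
    rw [h2] at h1
    rw [h1, ← pow_mul, mul_comm, Module.finrank_mul_finrank]
  -- Gauss estimate at each place
  have hdvd : (s.map fun r => X - C r).prod ∣ P.map (algebraMap ℤ L) := by
    rw [← hmprod]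
    have h1 : m ∣ P.map (algebraMap ℤ ℚ) := by
      apply minpoly.dvd
      rw [aeval_map_algebraMap]
      exact hP
    have h2 := Polynomial.map_dvd (algebraMap ℚ L) h1
    rw [Polynomial.map_map] at h2
    convert h2 using 2
    exact RingHom.ext_int _ _
  have hgauss : ∀ w : FinitePlace L,
      (s.map fun r => max (w r) 1).prod ≤ (w (P.leadingCoeff : L))⁻¹ := by
    intro w
    have hpos : 0 < w (P.leadingCoeff : L) := by
      rw [FinitePlace.pos_iff]
      simpa using hP0
    rw [← one_div, le_div_iff₀ hpos]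
    exact gauss_estimate w s P hdvd
  have hA0 : (P.leadingCoeff : L) ≠ 0 := by simpa using hP0
  have hsup : ∀ r : L, (fun v : FinitePlace L => max (v r) 1).HasFiniteMulSupport := by
    intro r
    rcases eq_or_ne r 0 with rfl | hr
    · have : (fun v : FinitePlace L => max (v (0 : L)) 1) = fun _ => 1 := by
        funext v; simp
      rw [this]
      fun_prop
    · have hs1 : (fun v : FinitePlace L => v r).HasFiniteMulSupport :=
        FinitePlace.hasFiniteMulSupport hr
      fun_prop
  have hswap : ∀ t : Multiset L,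
      (fun w : FinitePlace L => (t.map fun r => max (w r) 1).prod).HasFiniteMulSupport ∧
      ∏ᶠ w : FinitePlace L, (t.map fun r => max (w r) 1).prod =
      (t.map fun r => ∏ᶠ w : FinitePlace L, max (w r) 1).prod := by
    intro t
    induction t using Multiset.induction_on with
    | empty => simp only [Multiset.map_zero, Multiset.prod_zero, finprod_one, and_true]; fun_prop
    | cons a t ih =>
      simp only [Multiset.map_cons, Multiset.prod_cons]
      refine ⟨(hsup a).mul ih.1, ?_⟩
      rw [finprod_mul_distrib (hsup a) ih.1, ih.2]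
  have hfin : ∏ᶠ w : FinitePlace L, (s.map fun r => max (w r) 1).prod ≤
      |(P.leadingCoeff : ℝ)| ^ (Module.finrank ℚ L) := by
    have h1 : ∏ᶠ w : FinitePlace L, (w (P.leadingCoeff : L))⁻¹ =
        |(P.leadingCoeff : ℝ)| ^ (Module.finrank ℚ L) := by
      rw [finprod_inv_distrib, FinitePlace.prod_eq_inv_abs_norm hA0, Rat.cast_inv, inv_inv]
      have : (P.leadingCoeff : L) = algebraMap ℚ L P.leadingCoeff := by simp
      rw [this, Algebra.norm_algebraMap]
      push_cast
      rw [abs_pow]
    rw [← h1]
    apply finprod_le_finprod (hswap s).1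
    · intro w
      apply Multiset.prod_map_nonneg
      intro r _
      positivity
    · exact (FinitePlace.hasFiniteMulSupport hA0).inv
    · intro w; exact hgauss w
  rw [(hswap s).2] at hfin
  have hpow : ((s.map fun r => ∏ᶠ w : FinitePlace L, max (w r) 1).prod) ^ (Module.finrank ℚ K) =
      (H ^ (Module.finrank ℚ L)) ^ (Module.finrank ℚ K) := by
    rw [← Multiset.prod_map_pow, Multiset.map_congr rfl hroot, Multiset.map_const',
      Multiset.prod_replicate, hcard]
  have hprodnn : 0 ≤ (s.map fun r => ∏ᶠ w : FinitePlace L, max (w r) 1).prod := by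
    apply Multiset.prod_map_nonneg
    intro r _
    exact finprod_nonneg fun v => by positivity
  have heq : (s.map fun r => ∏ᶠ w : FinitePlace L, max (w r) 1).prod =
      H ^ (Module.finrank ℚ L) := by
    exact (pow_left_inj₀ hprodnn (by positivity) hKpos.ne').mp hpow
  rw [heq] at hfin
  exact (pow_le_pow_iff_left₀ hH0 (abs_nonneg _) hLpos.ne').mp hfin

open Polynomial IntermediateField in
/-- Upper bound for the height of an algebraic number all of whose conjugates lie on the unit
circle. -/
theorem absLogHeight_upper {E : Type*} [Field E] [CharZero E] (x : E) (hx : IsIntegral ℚ x)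
    (P : ℤ[X]) (hP0 : P ≠ 0) (hP : aeval x P = 0)
    (hunit : ∀ z ∈ (minpoly ℚ x).rootSet ℂ, ‖z‖ = 1) :
    absLogHeight₁ x ≤ Real.log |(P.leadingCoeff : ℝ)| / (minpoly ℚ x).natDegree := by
  have hfd : FiniteDimensional ℚ ℚ⟮x⟯ := adjoin.finiteDimensional hx
  have hnf : NumberField ℚ⟮x⟯ := {}
  set g := AdjoinSimple.gen ℚ x with hg
  have hgx : (g : E) = x := AdjoinSimple.coe_gen ℚ x
  have hmg : minpoly ℚ g = minpoly ℚ x := minpoly_gen ℚ x
  have hdeg : Module.finrank ℚ ℚ⟮x⟯ = (minpoly ℚ x).natDegree := adjoin.finrank hx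
  have habs : absLogHeight₁ x = Real.log (Height.mulHeight₁ g) /
      (Module.finrank ℚ ℚ⟮x⟯ : ℝ) := by
    rw [absLogHeight₁, absMulHeight₁, dif_pos hx, Real.log_rpow, div_eq_inv_mul]
    exact mulHeight₁_pos _
  rw [habs, hdeg]
  have hL : NumberField (minpoly ℚ x).SplittingField :=
    { to_charZero := inferInstance, to_finiteDimensional := inferInstance }
  have hfinle : (∏ᶠ v : FinitePlace ℚ⟮x⟯, max (v g) 1) ≤ |(P.leadingCoeff : ℝ)| := by
    apply finprod_max_le (L := (minpoly ℚ x).SplittingField) g (by rw [hmg, hdeg]) _ _ P hP0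
    · apply (algebraMap ℚ⟮x⟯ E).injective
      rw [← Polynomial.aeval_algebraMap_apply, map_zero]
      change Polynomial.aeval (g : E) P = 0
      rw [hgx, hP]
    · rw [hmg]; exact SplittingField.splits _
    · rw [hmg]
      intro r hr
      refine ⟨(algHomAdjoinIntegralEquiv ℚ hx).symm ⟨r, hr⟩, ?_⟩
      exact algHomAdjoinIntegralEquiv_symm_apply_gen ℚ hx ⟨r, hr⟩
  have hinf : ∏ v : InfinitePlace ℚ⟮x⟯, max (v g) 1 ^ v.mult = 1 := by
    apply Finset.prod_eq_one
    intro v _
    obtain ⟨φ, rfl⟩ : ∃ φ : ℚ⟮x⟯ →+* ℂ, InfinitePlace.mk φ = v := ⟨v.embedding, v.mk_embedding⟩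
    have : ‖φ g‖ = 1 := by
      apply hunit
      rw [Polynomial.mem_rootSet]
      refine ⟨minpoly.ne_zero hx, ?_⟩
      have : Polynomial.aeval g (minpoly ℚ x) = 0 := by
        rw [← hmg, minpoly.aeval]
      have h3 := congrArg φ this
      rw [map_zero] at h3
      rw [← h3]
      have := Polynomial.aeval_algHom_apply φ.toRatAlgHom g (minpoly ℚ x)
      simpa using this
    rw [InfinitePlace.apply, this, max_self, one_pow]
  rw [NumberField.mulHeight₁_eq, hinf, one_mul]
  gcongr
  have h1 : (1 : ℝ) ≤ ∏ᶠ v : FinitePlace ℚ⟮x⟯, max (v g) 1 :=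
    one_le_finprod fun _ => le_max_right _ _
  linarith

end Pool.Agent.H29.Bogo
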