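import Mathlib

set_option autoImplicit false

namespace Pool.Agent.H29.Bogo

open Polynomial Polynomial.Gal

theorem card_rootSet_of_irreducible {f : ℚ[X]} (hirr : Irreducible f) (L : Type*) [Field L]
    [Algebra ℚ L] (hs : (f.map (algebraMap ℚ L)).Splits) :
    Nat.card (f.rootSet L) = f.natDegree := by
  classical
  rw [Nat.card_eq_fintype_card]
  simp_rw [rootSet_def, Finset.coe_sort_coe, Fintype.card_coe]
  rw [Multiset.toFinset_card_of_nodup, ← Splits.natDegree_eq_card_roots, natDegree_map]
  · exact hs
  · exact nodup_roots ((separable_map (algebraMap ℚ L)).mpr hirr.separable)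

/-- If an irreducible rational polynomial of prime degree `p` has exactly `p - 2` roots in some
field extension `E`, then its Galois group (acting on the roots in the algebraic closure of `E`)
is the full symmetric group. -/
theorem galActionHom_bijective_algClosure {f : ℚ[X]} (hirr : Irreducible f)
    (hdeg : f.natDegree.Prime) (E : Type*) [Field E] [CharZero E]
    (hroots : Nat.card (f.rootSet E) + 2 = f.natDegree)
    [Fact ((f.map (algebraMap ℚ (AlgebraicClosure E))).Splits)] :
    Function.Bijective (galActionHom f (AlgebraicClosure E)) := by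
  classical
  have hf0 : f ≠ 0 := hirr.ne_zero
  have h1 : Fintype.card (f.rootSet (AlgebraicClosure E)) = f.natDegree := by
    rw [← Nat.card_eq_fintype_card]
    exact card_rootSet_of_irreducible hirr _ (IsAlgClosed.splits _)
  -- the roots coming from `E`
  let im : Set (AlgebraicClosure E) := algebraMap E (AlgebraicClosure E) '' (f.rootSet E)
  have him : im ⊆ f.rootSet (AlgebraicClosure E) := by
    rintro _ ⟨r, hr, rfl⟩
    rw [mem_rootSet] at hr ⊢
    refine ⟨hf0, ?_⟩
    rw [aeval_algebraMap_apply, hr.2, map_zero]
  have himcard : im.ncard + 2 = f.natDegree := by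
    rw [Set.ncard_image_of_injective _ (algebraMap E (AlgebraicClosure E)).injective]
    exact hroots
  have hall : (f.rootSet (AlgebraicClosure E)).ncard = f.natDegree := by
    rw [← h1, ← Nat.card_eq_fintype_card]; rfl
  have hfin : (f.rootSet (AlgebraicClosure E)).Finite := Set.toFinite _
  have hdiff : (f.rootSet (AlgebraicClosure E) \ im).ncard = 2 := by
    have := Set.ncard_sdiff_add_ncard_of_subset him hfin
    omega
  obtain ⟨r, hr⟩ : (f.rootSet (AlgebraicClosure E) \ im).Nonempty := by
    rw [← Set.ncard_pos (hfin.subset Set.sdiff_subset)]; omega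
  have hrE : r ∉ Set.range (algebraMap E (AlgebraicClosure E)) := by
    rintro ⟨s, rfl⟩
    refine hr.2 ⟨s, ?_, rfl⟩
    have := (mem_rootSet.mp hr.1).2
    rw [mem_rootSet]
    refine ⟨hf0, ?_⟩
    rw [aeval_algebraMap_apply] at this
    exact (algebraMap E (AlgebraicClosure E)).injective (by rw [this, map_zero])
  rw [InfiniteGalois.mem_range_algebraMap_iff_fixed] at hrE
  push Not at hrE
  obtain ⟨σ, hσ⟩ := hrE
  let conj' := restrict f (AlgebraicClosure E) (σ.restrictScalars ℚ)
  have hconj : ∀ w : f.rootSet (AlgebraicClosure E),
      ((galActionHom f (AlgebraicClosure E) conj' w : f.rootSet (AlgebraicClosure E)) :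
        AlgebraicClosure E) = σ w := fun w =>
    galActionHom_restrict f (AlgebraicClosure E) (σ.restrictScalars ℚ) w
  refine
    ⟨galActionHom_injective f _, fun x =>
      (congr_arg (x ∈ ·) (show (galActionHom f (AlgebraicClosure E)).range = ⊤ from ?_)).mpr
        (Subgroup.mem_top x)⟩
  apply Equiv.Perm.subgroup_eq_top_of_swap_mem (τ := galActionHom f (AlgebraicClosure E) conj')
  · rwa [h1]
  · rw [h1]
    simpa only [Fintype.card_eq_nat_card,
      Nat.card_congr (MonoidHom.ofInjective (galActionHom_injective f _)).toEquiv.symm]
      using prime_degree_dvd_card hirr hdeg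
  · exact ⟨conj', rfl⟩
  · rw [← Equiv.Perm.card_support_eq_two]
    apply le_antisymm
    · have hsub : ((Equiv.Perm.support (galActionHom f (AlgebraicClosure E) conj')).image
          (Subtype.val) : Set (AlgebraicClosure E)) ⊆ f.rootSet (AlgebraicClosure E) \ im := by
        intro w hw
        rw [Finset.mem_coe, Finset.mem_image] at hw
        obtain ⟨w', hw', rfl⟩ := hw
        refine ⟨w'.2, ?_⟩
        rintro ⟨s, hs, hs2⟩
        rw [Equiv.Perm.mem_support] at hw'
        apply hw'
        apply Subtype.ext
        rw [hconj, ← hs2, AlgEquiv.commutes]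
      have := Set.ncard_le_ncard hsub (hfin.subset Set.sdiff_subset)
      rw [hdiff, Set.ncard_coe_finset, Finset.card_image_of_injective _ Subtype.val_injective]
        at this
      exact this
    · apply Equiv.Perm.two_le_card_support_of_ne_one
      intro h
      apply hσ
      have := hconj ⟨r, hr.1⟩
      rw [h] at this
      exact this.symm

/-- If an irreducible rational polynomial of prime degree `p` has exactly `p - 2` roots in some
field extension `E`, then its Galois group is the full symmetric group on its roots in any
field in which it splits. -/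
theorem galActionHom_surjective {f : ℚ[X]} (hirr : Irreducible f)
    (hdeg : f.natDegree.Prime) (E : Type*) [Field E] [CharZero E]
    (hroots : Nat.card (f.rootSet E) + 2 = f.natDegree)
    (Ω : Type*) [Field Ω] [Algebra ℚ Ω] [hΩ : Fact ((f.map (algebraMap ℚ Ω)).Splits)] :
    Function.Surjective (galActionHom f Ω) := by
  classical
  have : Fact ((f.map (algebraMap ℚ (AlgebraicClosure E))).Splits) := ⟨IsAlgClosed.splits _⟩
  have hb := galActionHom_bijective_algClosure hirr hdeg E hroots
  have hc1 : Nat.card f.Gal = (f.natDegree).factorial := by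
    rw [Nat.card_congr (Equiv.ofBijective _ hb), Nat.card_perm,
      card_rootSet_of_irreducible hirr _ (IsAlgClosed.splits _)]
  have hc2 : Nat.card (Equiv.Perm (f.rootSet Ω)) = (f.natDegree).factorial := by
    rw [Nat.card_perm, card_rootSet_of_irreducible hirr _ hΩ.1]
  exact ((Nat.bijective_iff_injective_and_card _).mpr
    ⟨galActionHom_injective f Ω, by rw [hc1, hc2]⟩).2

end Pool.Agent.H29.Bogo
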