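import Mathlib

set_option autoImplicit false

namespace Pool.Agent.H29.Bogo

open Polynomial

/-- An Eisenstein criterion at `2` for polynomials which need not be primitive. -/
theorem irreducible_of_eisenstein_two (Q : ℤ[X]) (hdeg : 0 < Q.natDegree)
    (hlead : ¬ (2 : ℤ) ∣ Q.leadingCoeff) (hc : ∀ j < Q.natDegree, (2 : ℤ) ∣ Q.coeff j)
    (h0 : ¬ (4 : ℤ) ∣ Q.coeff 0) : Irreducible (Q.map (algebraMap ℤ ℚ)) := by
  have hQ0 : Q ≠ 0 := by intro h; rw [h] at hdeg; simp at hdeg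
  set c := Q.content with hcdef
  set P := Q.primPart with hP
  have hQP : Q = C c * P := Q.eq_C_content_mul_primPart
  have hc0 : c ≠ 0 := by rw [hcdef, Ne, content_eq_zero_iff]; exact hQ0
  have hcoef : ∀ j, Q.coeff j = c * P.coeff j := by
    intro j
    conv_lhs => rw [hQP]
    rw [coeff_C_mul]
  have hPdeg : P.natDegree = Q.natDegree := natDegree_primPart Q
  have hc2 : ¬ (2 : ℤ) ∣ c := by
    intro h
    apply hlead
    have : Q.leadingCoeff = c * P.coeff Q.natDegree := by rw [← hcoef]; rfl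
    rw [this]
    exact Dvd.dvd.mul_right h _
  have h2p : Prime (2 : ℤ) := Int.prime_two
  have hPirr : Irreducible P := by
    apply irreducible_of_eisenstein_criterion (P := Ideal.span {(2 : ℤ)})
    · rw [Ideal.span_singleton_prime (by norm_num)]; exact h2p
    · rw [Ideal.mem_span_singleton]
      intro h
      apply hlead
      have : Q.leadingCoeff = c * P.leadingCoeff := by
        rw [leadingCoeff, leadingCoeff, hPdeg, hcoef]
      rw [this]
      exact Dvd.dvd.mul_left h _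
    · intro j hj
      rw [Ideal.mem_span_singleton]
      have hj' : j < Q.natDegree := by
        rw [← hPdeg]
        exact coe_lt_degree.mp hj
      have := hc j hj'
      rw [hcoef] at this
      exact (h2p.dvd_or_dvd this).resolve_left hc2
    · rw [← natDegree_pos_iff_degree_pos, hPdeg]; exact hdeg
    · rw [Ideal.span_singleton_pow, Ideal.mem_span_singleton]
      intro h
      apply h0
      rw [hcoef]
      exact Dvd.dvd.mul_left (by simpa using h) _
    · exact Q.isPrimitive_primPart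
  have hPQ : Irreducible (P.map (algebraMap ℤ ℚ)) :=
    (IsPrimitive.irreducible_iff_irreducible_map_fraction_map Q.isPrimitive_primPart).mp hPirr
  have : Q.map (algebraMap ℤ ℚ) = C ((algebraMap ℤ ℚ) c) * P.map (algebraMap ℤ ℚ) := by
    conv_lhs => rw [hQP]
    rw [Polynomial.map_mul, map_C]
  rw [this]
  have hu : IsUnit (C ((algebraMap ℤ ℚ) c)) := by
    rw [isUnit_C]
    exact IsUnit.mk0 _ (by simpa using hc0)
  exact (irreducible_isUnit_mul hu).mpr hPQ

theorem toZMod_eq_zero_iff {ℓ : ℕ} [hℓ : Fact ℓ.Prime] (x : ℤ_[ℓ]) :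
    PadicInt.toZMod x = 0 ↔ ‖x‖ < 1 := by
  rw [← RingHom.mem_ker, PadicInt.ker_toZMod, IsLocalRing.mem_maximalIdeal, mem_nonunits_iff,
    PadicInt.isUnit_iff]
  constructor
  · intro h; exact lt_of_le_of_ne (PadicInt.norm_le_one x) h
  · intro h; exact h.ne

/-- If `Q` reduces modulo `ℓ` to `∏ (X - (i+1)) * (X ^ 2 - u)` with `u` a nonsquare, then `Q` has
exactly `n` roots in `ℚ_ℓ`. -/
theorem padic_roots (ℓ : ℕ) [hℓ : Fact ℓ.Prime] (n : ℕ) (hn : n < ℓ) (u : ZMod ℓ)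
    (hu : ¬ IsSquare u) (Q : ℤ[X]) (hlead : ¬ (ℓ : ℤ) ∣ Q.leadingCoeff)
    (hQ : Q.map (Int.castRingHom (ZMod ℓ)) =
      (∏ i ∈ Finset.range n, (X - C ((i + 1 : ℕ) : ZMod ℓ))) * (X ^ 2 - C u)) :
    Nat.card ((Q.map (algebraMap ℤ ℚ)).rootSet ℚ_[ℓ]) = n := by
  classical
  have hQ0 : Q ≠ 0 := by intro h; rw [h] at hlead; simp at hlead
  have hQQ0 : Q.map (algebraMap ℤ ℚ) ≠ 0 :=
    (Polynomial.map_ne_zero_iff (algebraMap ℤ ℚ).injective_int).mpr hQ0
  -- evaluation modulo `ℓ`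
  have hmod : ∀ (P : ℤ[X]) (x : ℤ_[ℓ]), PadicInt.toZMod (aeval x P) =
      (P.map (Int.castRingHom (ZMod ℓ))).eval (PadicInt.toZMod x) := by
    intro P x
    rw [eval_map, aeval_def, hom_eval₂]
    congr 1
    exact RingHom.ext_int _ _
  have hev : ∀ y : ZMod ℓ, (Q.map (Int.castRingHom (ZMod ℓ))).eval y =
      (∏ i ∈ Finset.range n, (y - ((i + 1 : ℕ) : ZMod ℓ))) * (y ^ 2 - u) := by
    intro y
    rw [hQ, eval_mul, eval_prod]
    simp
  have hinj : ∀ i < n, ∀ j < n, ((i + 1 : ℕ) : ZMod ℓ) = ((j + 1 : ℕ) : ZMod ℓ) → i = j := by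
    intro i hi j hj h
    rw [ZMod.natCast_eq_natCast_iff'] at h
    rw [Nat.mod_eq_of_lt (by omega), Nat.mod_eq_of_lt (by omega)] at h
    omega
  have hzero : ∀ i < n, PadicInt.toZMod (aeval (((i + 1 : ℕ) : ℤ_[ℓ])) Q) = 0 := by
    intro i hi
    rw [hmod, hev, map_natCast]
    rw [Finset.prod_eq_zero (Finset.mem_range.mpr hi) (sub_self _), zero_mul]
  have hder : ∀ i < n, PadicInt.toZMod (aeval (((i + 1 : ℕ) : ℤ_[ℓ])) (derivative Q)) ≠ 0 := by
    intro i hi
    rw [hmod, map_natCast, ← derivative_map, hQ,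
      ← Finset.mul_prod_erase _ _ (Finset.mem_range.mpr hi), mul_assoc, derivative_mul, eval_add,
      eval_mul, eval_mul]
    simp only [derivative_sub, derivative_X, derivative_C, sub_zero, eval_one, one_mul, eval_sub,
      eval_X, eval_C, sub_self, zero_mul, add_zero, eval_mul, eval_prod, eval_pow]
    rw [mul_ne_zero_iff, Finset.prod_ne_zero_iff]
    constructor
    · intro j hj
      rw [Finset.mem_erase, Finset.mem_range] at hj
      rw [sub_ne_zero]
      intro h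
      exact hj.1 (hinj i hi j hj.2 h).symm
    · rw [sub_ne_zero]
      intro h
      exact hu ⟨_, by rw [← h, sq]⟩
  have hder1 : ∀ i < n, ‖aeval (((i + 1 : ℕ) : ℤ_[ℓ])) (derivative Q)‖ = 1 := by
    intro i hi
    have := hder i hi
    rw [Ne, toZMod_eq_zero_iff, not_lt] at this
    exact le_antisymm (PadicInt.norm_le_one _) this
  have hhensel : ∀ i : Fin n, ∃ z : ℤ_[ℓ], aeval z Q = 0 ∧
      PadicInt.toZMod z = ((i.1 + 1 : ℕ) : ZMod ℓ) ∧
      ∀ z' : ℤ_[ℓ], aeval z' Q = 0 → PadicInt.toZMod z' = ((i.1 + 1 : ℕ) : ZMod ℓ) → z' = z := by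
    intro i
    have h1 := hder1 i.1 i.2
    have h2 : ‖aeval (((i.1 + 1 : ℕ) : ℤ_[ℓ])) Q‖ < ‖aeval (((i.1 + 1 : ℕ) : ℤ_[ℓ])) (derivative Q)‖ ^ 2 := by
      rw [h1, one_pow, ← toZMod_eq_zero_iff]
      exact hzero i.1 i.2
    have hclose : ∀ z : ℤ_[ℓ], ‖z - ((i.1 + 1 : ℕ) : ℤ_[ℓ])‖ < 1 ↔
        PadicInt.toZMod z = ((i.1 + 1 : ℕ) : ZMod ℓ) := by
      intro z
      rw [← toZMod_eq_zero_iff, map_sub, map_natCast, sub_eq_zero]
    obtain ⟨z, hz1, hz2, -, hz3⟩ := hensels_lemma h2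
    rw [h1] at hz2 hz3
    refine ⟨z, hz1, (hclose z).mp hz2, fun z' h3 h4 => hz3 z' h3 ((hclose z').mpr h4)⟩
  choose z hz1 hz2 hz3 using hhensel
  have haev : ∀ x : ℤ_[ℓ], aeval (x : ℚ_[ℓ]) (Q.map (algebraMap ℤ ℚ)) = ((aeval x Q : ℤ_[ℓ]) : ℚ_[ℓ]) := by
    intro x
    rw [aeval_map_algebraMap]
    have := aeval_algebraMap_apply ℚ_[ℓ] x Q
    exact this
  -- every root in `ℚ_ℓ` is integral
  have hint : ∀ r : ℚ_[ℓ], aeval r (Q.map (algebraMap ℤ ℚ)) = 0 → ∃ x : ℤ_[ℓ], (x : ℚ_[ℓ]) = r := by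
    intro r hr
    have hunit : IsUnit ((Q.leadingCoeff : ℤ) : ℤ_[ℓ]) := by
      rw [PadicInt.isUnit_iff, PadicInt.norm_intCast_eq_one_iff]
      exact (Int.isCoprime_iff_gcd_eq_one.mpr ((Int.isCoprime_iff_gcd_eq_one.mp
        ((Prime.coprime_iff_not_dvd (Nat.prime_iff_prime_int.mp hℓ.1)).mpr hlead)))).symm
    obtain ⟨v, hv⟩ := hunit
    set f : ℤ_[ℓ][X] := C (↑v⁻¹ : ℤ_[ℓ]) * Q.map (algebraMap ℤ ℤ_[ℓ]) with hf
    have hfm : f.Monic := by
      rw [Monic, hf, leadingCoeff_mul, leadingCoeff_C,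
        leadingCoeff_map_of_injective (algebraMap ℤ ℤ_[ℓ]).injective_int]
      rw [eq_intCast, ← hv]
      simp
    have hfr : aeval r f = 0 := by
      rw [hf, map_mul, aeval_map_algebraMap]
      rw [aeval_map_algebraMap] at hr
      rw [hr, mul_zero]
    obtain ⟨x, hx⟩ := isInteger_of_is_root_of_monic hfm hfr
    exact ⟨x, hx⟩
  have hset : ((Q.map (algebraMap ℤ ℚ)).rootSet ℚ_[ℓ]) = Set.range (fun i : Fin n => (z i : ℚ_[ℓ])) := by
    ext r
    rw [mem_rootSet, Set.mem_range]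
    constructor
    · rintro ⟨-, hr⟩
      obtain ⟨x, rfl⟩ := hint r hr
      rw [haev] at hr
      have hx : aeval x Q = 0 := Subtype.ext hr
      have h1 := hmod Q x
      rw [hx, map_zero, hev] at h1
      have h2 : PadicInt.toZMod x ^ 2 - u ≠ 0 := by
        intro h
        rw [sub_eq_zero] at h
        exact hu ⟨_, by rw [← h, sq]⟩
      have h3 := (mul_eq_zero.mp h1.symm).resolve_right h2
      rw [Finset.prod_eq_zero_iff] at h3
      obtain ⟨i, hi, hi2⟩ := h3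
      rw [Finset.mem_range] at hi
      refine ⟨⟨i, hi⟩, ?_⟩
      rw [hz3 ⟨i, hi⟩ x hx (sub_eq_zero.mp hi2)]
    · rintro ⟨i, rfl⟩
      refine ⟨hQQ0, ?_⟩
      rw [haev, hz1 i]
      simp
  rw [hset]
  have hinj2 : Function.Injective (fun i : Fin n => (z i : ℚ_[ℓ])) := by
    intro i j hij
    have h1 : z i = z j := Subtype.ext hij
    have h2 := hz2 i
    rw [h1, hz2 j] at h2
    exact Fin.ext (hinj _ i.2 _ j.2 h2.symm)
  rw [Nat.card_congr (Equiv.ofInjective _ hinj2).symm, Nat.card_fin]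

end Pool.Agent.H29.Bogo
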