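import Pool.Agent.H29.Bogo.PolyA
import Pool.Agent.H29.Bogo.PolyB

set_option autoImplicit false

namespace Pool.Agent.H29.Bogo

open Polynomial

/-- For every prime `p ≥ 5` there is an irreducible integral polynomial of degree `p`, with leading
coefficient at most `9 p ^ 2`, all of whose roots are real of absolute value `< 2`, and which has
exactly `p - 2` roots in some `ℚ_ℓ`. -/
theorem exists_poly (p : ℕ) (hp : p.Prime) (h5 : 5 ≤ p) :
    ∃ Q : ℤ[X], Q.natDegree = p ∧ 0 < Q.leadingCoeff ∧ Q.leadingCoeff ≤ 9 * p ^ 2 ∧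
      Irreducible (Q.map (algebraMap ℤ ℚ)) ∧
      (∃ (ℓ : ℕ) (_ : Fact ℓ.Prime), Nat.card ((Q.map (algebraMap ℤ ℚ)).rootSet ℚ_[ℓ]) + 2 = p) ∧
      ∀ z : ℂ, aeval z Q = 0 → ∃ t : ℝ, z = t ∧ |t| < 2 := by
  obtain ⟨ℓ, hℓ, hpℓ, hℓ2⟩ := Nat.exists_prime_lt_and_le_two_mul p hp.ne_zero
  have hℓF : Fact ℓ.Prime := ⟨hℓ⟩
  obtain ⟨u, hu⟩ := FiniteField.exists_nonsquare (F := ZMod ℓ) (by
    rw [ZMod.ringChar_zmod_n]; omega)
  -- Bezout
  have hcop : IsCoprime (4 : ℤ) (ℓ : ℤ) := by
    have h1 : Nat.Coprime 4 ℓ := by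
      rw [Nat.coprime_comm, hℓ.coprime_iff_not_dvd]
      intro h
      have := Nat.le_of_dvd (by norm_num) h
      omega
    exact_mod_cast Nat.isCoprime_iff_coprime.mpr h1
  obtain ⟨a, b, hab⟩ := hcop
  set T1 : ℤ[X] := X ^ p + C 2 with hT1
  set T2 : ℤ[X] := (∏ i ∈ Finset.range (p - 2), (X - C ((i + 1 : ℕ) : ℤ))) *
    (X ^ 2 - C (u.val : ℤ)) with hT2
  have hT1m : T1.Monic := monic_X_pow_add_C 2 hp.ne_zero
  have hT1d : T1.natDegree = p := natDegree_X_pow_add_C
  have hT2a : (∏ i ∈ Finset.range (p - 2), (X - C ((i + 1 : ℕ) : ℤ))).Monic :=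
    monic_prod_of_monic _ _ fun i _ => monic_X_sub_C _
  have hT2b : (X ^ 2 - C (u.val : ℤ) : ℤ[X]).Monic := monic_X_pow_sub_C _ (by norm_num)
  have hT2m : T2.Monic := hT2a.mul hT2b
  have hT2d : T2.natDegree = p := by
    rw [hT2, hT2a.natDegree_mul hT2b, natDegree_prod_of_monic _ _ fun i _ => monic_X_sub_C _]
    simp only [natDegree_X_sub_C, Finset.sum_const, Finset.card_range, smul_eq_mul, mul_one]
    rw [natDegree_X_pow_sub_C]; omega
  set T : ℤ[X] := C (b * ℓ) * T1 + C (a * 4) * T2 with hT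
  obtain ⟨hCm, hCd⟩ := chebC_monic p (by omega)
  set g : ℤ[X] := T - Chebyshev.C ℤ (p : ℤ) with hg
  have hgdeg : g.degree < p := by
    rw [degree_lt_iff_coeff_zero]
    intro j hj
    rw [hg, hT, coeff_sub, coeff_add, coeff_C_mul, coeff_C_mul]
    rcases eq_or_lt_of_le hj with rfl | hlt
    · have h1 : T1.coeff p = 1 := by have := hT1m.coeff_natDegree; rwa [hT1d] at this
      have h2 : T2.coeff p = 1 := by have := hT2m.coeff_natDegree; rwa [hT2d] at this
      have h3 : (Chebyshev.C ℤ (p : ℤ)).coeff p = 1 := by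
        have := hCm.coeff_natDegree; rwa [hCd] at this
      rw [h1, h2, h3]
      linear_combination hab
    · rw [coeff_eq_zero_of_natDegree_lt (by omega : T1.natDegree < j),
        coeff_eq_zero_of_natDegree_lt (by omega : T2.natDegree < j),
        coeff_eq_zero_of_natDegree_lt (by omega : (Chebyshev.C ℤ (p : ℤ)).natDegree < j)]
      ring
  obtain ⟨R, hR1, ⟨S, hS⟩, hR3⟩ := approx (4 * ℓ) (by have := hℓ.pos; omega) p g hgdeg
  set A : ℤ := 1 + 4 * ℓ * p with hA
  have hA0 : 0 < A := by positivity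
  set Q : ℤ[X] := C A * Chebyshev.C ℤ p + R with hQ
  have hCAd : (C A * Chebyshev.C ℤ (p : ℤ)).natDegree = p := by
    rw [natDegree_C_mul hA0.ne', hCd]
  have hCAdeg : (C A * Chebyshev.C ℤ (p : ℤ)).degree = p := by
    rw [degree_eq_natDegree, hCAd]
    intro h; rw [h] at hCAd; simp at hCAd; omega
  have hRlt : R.degree < (C A * Chebyshev.C ℤ (p : ℤ)).degree := by rw [hCAdeg]; exact hR1
  have hQdeg : Q.natDegree = p := by
    rw [hQ, natDegree_add_eq_left_of_degree_lt hRlt, hCAd]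
  have hQlead : Q.leadingCoeff = A := by
    rw [hQ, leadingCoeff_add_of_degree_lt' hRlt, leadingCoeff_mul, hCm.leadingCoeff, leadingCoeff_C,
      mul_one]
  -- the congruence
  have hcong : Q = T + C (4 * ℓ : ℤ) * (C (p : ℤ) * Chebyshev.C ℤ (p : ℤ) + S) := by
    have h1 : R = g + C (4 * ℓ : ℤ) * S := by
      have : R - g = C (4 * ℓ : ℤ) * S := by rw [hS]; push_cast; rfl
      rw [← this]; ring
    rw [hQ, h1, hg, hA]
    simp only [C_add, C_mul, C_1]
    ring
  refine ⟨Q, hQdeg, by rw [hQlead]; exact hA0, ?_, ?_, ⟨ℓ, hℓF, ?_⟩, ?_⟩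
  · rw [hQlead, hA]
    have h1 : (ℓ : ℤ) ≤ 2 * p := by exact_mod_cast hℓ2
    have h2 : (5 : ℤ) ≤ p := by exact_mod_cast h5
    nlinarith
  · apply irreducible_of_eisenstein_two
    · rw [hQdeg]; exact hp.pos
    · rw [hQlead, hA]
      rintro ⟨k, hk⟩
      have h3 : (1 : ℤ) + 4 * (ℓ * p) = 2 * k := by linear_combination hk
      generalize (ℓ : ℤ) * p = x at h3
      omega
    · intro j hj
      rw [hQdeg] at hj
      rw [hcong, hT, coeff_add, coeff_add, coeff_C_mul, coeff_C_mul, coeff_C_mul]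
      have h1 : (2 : ℤ) ∣ T1.coeff j := by
        rw [hT1, coeff_add, coeff_X_pow, if_neg (by omega), zero_add, coeff_C]
        split_ifs <;> simp
      obtain ⟨k, hk⟩ := h1
      rw [hk]
      refine ⟨b * ℓ * k + a * 2 * T2.coeff j + 2 * ℓ * (C (p : ℤ) * Chebyshev.C ℤ (p : ℤ) + S).coeff j, ?_⟩
      ring
    · rw [hcong, hT, coeff_add, coeff_add, coeff_C_mul, coeff_C_mul, coeff_C_mul]
      have h1 : T1.coeff 0 = 2 := by
        rw [hT1, coeff_add, coeff_X_pow, if_neg (by omega), zero_add, coeff_C_zero]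
      rw [h1]
      rintro ⟨k, hk⟩
      have h2 : b * ℓ = 1 - a * 4 := by linear_combination hab
      rw [h2] at hk
      have h3 : (2 : ℤ) * (1 - a * 4) + 4 * (a * T2.coeff 0) +
        4 * (ℓ * (C (p : ℤ) * Chebyshev.C ℤ (p : ℤ) + S).coeff 0) = 4 * k := by
        linear_combination hk
      generalize a * T2.coeff 0 = x at h3
      generalize (ℓ : ℤ) * (C (p : ℤ) * Chebyshev.C ℤ (p : ℤ) + S).coeff 0 = y at h3
      omega
  · have h1 := padic_roots ℓ (p - 2) (by omega) u hu Q ?_ ?_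
    · rw [h1]; omega
    · rw [hQlead, hA]
      intro h
      have h2 : (ℓ : ℤ) ∣ 1 := by
        have h3 : (ℓ : ℤ) ∣ 4 * ℓ * p := ⟨4 * p, by ring⟩
        exact (Int.dvd_add_left h3).mp h
      have h4 := Int.le_of_dvd one_pos h2
      have := hℓ.two_le
      omega
    · rw [hcong, hT]
      have e1 : (Int.castRingHom (ZMod ℓ)) (b * ℓ) = 0 := by simp
      have e2 : (Int.castRingHom (ZMod ℓ)) (a * 4) = 1 := by
        have : a * 4 = 1 - b * ℓ := by linear_combination hab
        rw [this]; simp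
      have e3 : (Int.castRingHom (ZMod ℓ)) (4 * ℓ : ℤ) = 0 := by simp
      simp only [Polynomial.map_add, Polynomial.map_mul, map_C, e1, e2, e3, C_0, C_1, zero_mul,
        one_mul, zero_add, add_zero]
      rw [hT2, Polynomial.map_mul, Polynomial.map_prod, Polynomial.map_sub, Polynomial.map_pow,
        map_X, map_C]
      congr 1
      · apply Finset.prod_congr rfl
        intro i _
        rw [Polynomial.map_sub, map_X, map_C]
        simp
      · simp
  · intro z hz
    apply real_roots p (by omega) A R hR1 _ z hz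
    intro t ht
    refine (hR3 t ht).trans_lt ?_
    rw [hA]
    push_cast
    nlinarith

end Pool.Agent.H29.Bogo
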