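import Mathlib

set_option autoImplicit false

namespace Pool.Agent.H29.Bogo

open Polynomial

/-- The reciprocal polynomial `X ^ p * Q (X + 1 / X)`, where `p = natDegree Q`. -/
noncomputable def recip (Q : ℤ[X]) : ℤ[X] :=
  ∑ j ∈ Finset.range (Q.natDegree + 1),
    C (Q.coeff j) * ((X ^ 2 + 1) ^ j * X ^ (Q.natDegree - j))

theorem aeval_recip {E : Type*} [Field E] (Q : ℤ[X]) (z : E) (hz : z ≠ 0) :
    aeval z (recip Q) = z ^ Q.natDegree * aeval (z + z⁻¹) Q := by
  rw [recip, map_sum, aeval_eq_sum_range, Finset.mul_sum]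
  apply Finset.sum_congr rfl
  intro j hj
  have hj' : j ≤ Q.natDegree := Nat.lt_succ_iff.mp (Finset.mem_range.mp hj)
  simp only [map_mul, map_pow, map_add, aeval_X, map_one, eq_intCast, map_intCast,
    zsmul_eq_mul]
  have h1 : z ^ Q.natDegree = z ^ (Q.natDegree - j) * z ^ j := by
    rw [← pow_add]; congr 1; omega
  have h2 : z * (z + z⁻¹) = z ^ 2 + 1 := by field_simp
  rw [h1, ← h2, mul_pow]
  ring

theorem aeval_recip_zero {E : Type*} [Field E] (Q : ℤ[X]) :
    aeval (0 : E) (recip Q) = (Q.leadingCoeff : E) := by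
  rw [recip, map_sum, Finset.sum_range_succ, Finset.sum_eq_zero]
  · simp
  · intro j hj
    have hj' : j < Q.natDegree := Finset.mem_range.mp hj
    have : Q.natDegree - j ≠ 0 := by omega
    simp [this]

theorem recip_natDegree_le (Q : ℤ[X]) (j : ℕ) (hj : j ≤ Q.natDegree) :
    (C (Q.coeff j) * ((X ^ 2 + 1) ^ j * X ^ (Q.natDegree - j)) : ℤ[X]).natDegree ≤
      Q.natDegree + j := by
  refine (natDegree_C_mul_le _ _).trans (natDegree_mul_le.trans ?_)
  have h1 : ((X ^ 2 + 1 : ℤ[X]) ^ j).natDegree ≤ j * 2 := by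
    refine natDegree_pow_le.trans ?_
    gcongr
    compute_degree
  have h2 : ((X : ℤ[X]) ^ (Q.natDegree - j)).natDegree ≤ Q.natDegree - j := by
    rw [natDegree_X_pow]
  omega

theorem recip_coeff_top (Q : ℤ[X]) : (recip Q).coeff (2 * Q.natDegree) = Q.leadingCoeff := by
  rw [recip, finsetSum_coeff, Finset.sum_range_succ, Finset.sum_eq_zero, zero_add]
  · rw [coeff_C_mul, Nat.sub_self, pow_zero, mul_one]
    have hm : (X ^ 2 + 1 : ℤ[X]).Monic := by
      have := monic_X_pow_add_C (1 : ℤ) (n := 2) (by norm_num)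
      simpa using this
    have hd : (X ^ 2 + 1 : ℤ[X]).natDegree = 2 := by
      have := natDegree_X_pow_add_C (n := 2) (r := (1 : ℤ))
      simpa using this
    have h1 := (hm.pow Q.natDegree).coeff_natDegree
    rw [hm.natDegree_pow, hd, mul_comm] at h1
    rw [h1, mul_one]; rfl
  · intro j hj
    have hj' : j < Q.natDegree := Finset.mem_range.mp hj
    apply coeff_eq_zero_of_natDegree_lt
    refine (recip_natDegree_le Q j hj'.le).trans_lt ?_
    omega

theorem recip_leadingCoeff (Q : ℤ[X]) : (recip Q).leadingCoeff = Q.leadingCoeff := by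
  rcases eq_or_ne Q 0 with rfl | hQ
  · simp [recip]
  have hle : (recip Q).natDegree ≤ 2 * Q.natDegree := by
    apply natDegree_sum_le_of_forall_le
    intro j hj
    have hj' : j ≤ Q.natDegree := Nat.lt_succ_iff.mp (Finset.mem_range.mp hj)
    refine (recip_natDegree_le Q j hj').trans ?_
    omega
  have hd : (recip Q).natDegree = 2 * Q.natDegree := by
    apply le_antisymm hle
    apply le_natDegree_of_ne_zero
    rw [recip_coeff_top]
    exact leadingCoeff_ne_zero.mpr hQ
  rw [leadingCoeff, hd, recip_coeff_top]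

/-- A complex number `z` with `z + 1/z` real of absolute value `< 2` is on the unit circle. -/
theorem norm_eq_one_of_add_inv (z : ℂ) (hz : z ≠ 0) (t : ℝ) (h : z + z⁻¹ = t) (ht : |t| < 2) :
    ‖z‖ = 1 := by
  have h1 : z ^ 2 - t * z + 1 = 0 := by
    field_simp at h
    linear_combination h
  have hre := congrArg Complex.re h1
  have him := congrArg Complex.im h1
  simp [sq] at hre him
  set x := z.re
  set y := z.im
  have hxy : y * (2 * x - t) = 0 := by linear_combination him
  have habs := abs_lt.mp ht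
  rcases mul_eq_zero.mp hxy with h2 | h2
  · exfalso
    rw [h2] at hre
    nlinarith [sq_nonneg (x - t / 2)]
  · have h3 : x ^ 2 + y ^ 2 = 1 := by
      have : t = 2 * x := by linarith
      rw [this] at hre
      linear_combination -hre
    rw [Complex.norm_def, Complex.normSq_apply]
    have : z.re * z.re + z.im * z.im = 1 := by linear_combination h3
    rw [this, Real.sqrt_one]

end Pool.Agent.H29.Bogo
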