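import Pool.Agent.H29.Bogo.GroupLemma
import Pool.Agent.H29.Bogo.GaloisSp
import Pool.Agent.H29.Bogo.HeightLower
import Pool.Agent.H29.Bogo.HeightUpper
import Pool.Agent.H29.Bogo.PolyC
import Pool.Agent.H29.Bogo.Recip

set_option autoImplicit false

namespace Pool.Agent.H29.Bogo

open Polynomial IntermediateField NumberField

/-- The primes `5, 7, 11, ...`. -/
noncomputable def pr (n : ℕ) : ℕ := Nat.nth Nat.Prime (n + 2)

theorem pr_prime (n : ℕ) : (pr n).Prime := Nat.prime_nth_prime _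

theorem pr_strictMono : StrictMono pr := by
  intro a b hab
  exact Nat.nth_strictMono Nat.infinite_setOfPred_prime (by omega)

theorem pr_ge (n : ℕ) : 5 ≤ pr n := by
  have h : pr 0 ≤ pr n := pr_strictMono.monotone (Nat.zero_le n)
  have h2 : pr 0 = 5 := by
    unfold pr
    simp
  omega

theorem le_pr (n : ℕ) : n ≤ pr n := pr_strictMono.le_apply

/-- The polynomials `Q_n` of degree `pr n`. -/
noncomputable def QQ (n : ℕ) : ℤ[X] := (exists_poly (pr n) (pr_prime n) (pr_ge n)).choose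

theorem QQ_spec (n : ℕ) : (QQ n).natDegree = pr n ∧ 0 < (QQ n).leadingCoeff ∧
      (QQ n).leadingCoeff ≤ 9 * pr n ^ 2 ∧
      Irreducible ((QQ n).map (algebraMap ℤ ℚ)) ∧
      (∃ (ℓ : ℕ) (_ : Fact ℓ.Prime),
        Nat.card (((QQ n).map (algebraMap ℤ ℚ)).rootSet ℚ_[ℓ]) + 2 = pr n) ∧
      ∀ z : ℂ, aeval z (QQ n) = 0 → ∃ t : ℝ, z = t ∧ |t| < 2 :=
  (exists_poly (pr n) (pr_prime n) (pr_ge n)).choose_spec

theorem QQ_natDegree (n : ℕ) : (QQ n).natDegree = pr n := (QQ_spec n).1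

theorem QQ_ne_zero (n : ℕ) : QQ n ≠ 0 := by
  intro h
  have := QQ_natDegree n
  rw [h, natDegree_zero] at this
  have := pr_ge n
  omega

/-- `Q_n` over `ℚ`. -/
noncomputable def Qrat (n : ℕ) : ℚ[X] := (QQ n).map (algebraMap ℤ ℚ)

theorem Qrat_irreducible (n : ℕ) : Irreducible (Qrat n) := (QQ_spec n).2.2.2.1

theorem Qrat_natDegree (n : ℕ) : (Qrat n).natDegree = pr n := by
  rw [Qrat, natDegree_map_eq_of_injective (algebraMap ℤ ℚ).injective_int, QQ_natDegree]

/-- The reciprocal polynomials over `ℚ`. -/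
noncomputable def Prat (n : ℕ) : ℚ[X] := (recip (QQ n)).map (algebraMap ℤ ℚ)

theorem recip_ne_zero (n : ℕ) : recip (QQ n) ≠ 0 := by
  intro h
  have := recip_leadingCoeff (QQ n)
  rw [h, leadingCoeff_zero] at this
  exact leadingCoeff_ne_zero.mpr (QQ_ne_zero n) this.symm

theorem Prat_ne_zero (n : ℕ) : Prat n ≠ 0 :=
  (Polynomial.map_ne_zero_iff (algebraMap ℤ ℚ).injective_int).mpr (recip_ne_zero n)

theorem mem_rootSet_Prat (n : ℕ) {E : Type*} [Field E] [Algebra ℚ E] (z : E) :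
    z ∈ (Prat n).rootSet E ↔ z ≠ 0 ∧ aeval (z + z⁻¹) (Qrat n) = 0 := by
  have hE : CharZero E := algebraRat.charZero E
  rw [mem_rootSet, Prat, Qrat, aeval_map_algebraMap, aeval_map_algebraMap]
  constructor
  · rintro ⟨-, h⟩
    have hz : z ≠ 0 := by
      rintro rfl
      rw [aeval_recip_zero] at h
      exact leadingCoeff_ne_zero.mpr (QQ_ne_zero n) (by exact_mod_cast h)
    rw [aeval_recip _ _ hz] at h
    exact ⟨hz, (mul_eq_zero.mp h).resolve_left (pow_ne_zero _ hz)⟩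
  · rintro ⟨hz, h⟩
    refine ⟨Prat_ne_zero n, ?_⟩
    rw [aeval_recip _ _ hz, h, mul_zero]

/-- All complex roots of `Prat n` lie on the unit circle. -/
theorem norm_of_mem_rootSet_Prat (n : ℕ) (z : ℂ) (hz : z ∈ (Prat n).rootSet ℂ) : ‖z‖ = 1 := by
  rw [mem_rootSet_Prat] at hz
  obtain ⟨h0, h1⟩ := hz
  rw [Qrat, aeval_map_algebraMap] at h1
  obtain ⟨t, ht, ht2⟩ := (QQ_spec n).2.2.2.2.2 _ h1
  exact norm_eq_one_of_add_inv z h0 t ht ht2

/-- The field `F`. -/
noncomputable def FF : IntermediateField ℚ (AlgebraicClosure ℚ) :=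
  adjoin ℚ (⋃ n, (Prat n).rootSet (AlgebraicClosure ℚ))

theorem FF_eq_iSup : FF = ⨆ n, adjoin ℚ ((Prat n).rootSet (AlgebraicClosure ℚ)) :=
  adjoin_iUnion ℚ _

theorem mem_FF_of_root (n : ℕ) (β : AlgebraicClosure ℚ)
    (hβ : β ∈ (Prat n).rootSet (AlgebraicClosure ℚ)) : β ∈ FF :=
  subset_adjoin _ _ (Set.mem_iUnion.mpr ⟨n, hβ⟩)

instance FF_normal : Normal ℚ FF := by
  have h : ∀ n, Normal ℚ (adjoin ℚ ((Prat n).rootSet (AlgebraicClosure ℚ))) := by
    intro n
    have : IsSplittingField ℚ (adjoin ℚ ((Prat n).rootSet (AlgebraicClosure ℚ))) (Prat n) :=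
      adjoin_rootSet_isSplittingField (IsAlgClosed.splits _)
    exact Normal.of_isSplittingField (Prat n)
  rw [FF_eq_iSup]
  exact @IntermediateField.normal_iSup _ _ _ _ _ _ _ h

instance FF_isGalois : IsGalois ℚ FF := {}

/-- The roots of `Q_n` lie in `F`. -/
theorem mem_FF_of_Qrat_root (n : ℕ) (t : AlgebraicClosure ℚ) (ht : aeval t (Qrat n) = 0) : t ∈ FF := by
  obtain ⟨β, hβ⟩ : ∃ β : AlgebraicClosure ℚ, β ^ 2 - t * β + 1 = 0 := by
    have hd : (X ^ 2 - C t * X + 1 : (AlgebraicClosure ℚ)[X]).degree ≠ 0 := by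
      have : (X ^ 2 - C t * X + 1 : (AlgebraicClosure ℚ)[X]).degree = 2 := by compute_degree!
      rw [this]; norm_num
    obtain ⟨β, hβ⟩ := IsAlgClosed.exists_root _ hd
    refine ⟨β, ?_⟩
    simpa [IsRoot.def] using hβ
  have hβ0 : β ≠ 0 := by
    rintro rfl
    simp at hβ
  have hsum : β + β⁻¹ = t := by
    field_simp
    linear_combination hβ
  have hmem : β ∈ (Prat n).rootSet (AlgebraicClosure ℚ) := by
    rw [mem_rootSet_Prat]
    exact ⟨hβ0, by rw [hsum, ht]⟩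
  have := mem_FF_of_root n β hmem
  rw [← hsum]
  exact FF.add_mem this (FF.inv_mem this)

instance Qrat_splits_FF (n : ℕ) : Fact (((Qrat n).map (algebraMap ℚ FF)).Splits) := by
  constructor
  apply IntermediateField.splits_of_splits (IsAlgClosed.splits _)
  intro x hx
  rw [mem_rootSet] at hx
  exact mem_FF_of_Qrat_root n x hx.2

/-- The action of the Galois group of `F` on the roots of `Q_n`. -/
noncomputable def rho (n : ℕ) : (FF ≃ₐ[ℚ] FF) →* Equiv.Perm ((Qrat n).rootSet FF) :=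
  (Gal.galActionHom (Qrat n) FF).comp (Gal.restrict (Qrat n) FF)

theorem rho_surjective (n : ℕ) : Function.Surjective (rho n) := by
  obtain ⟨ℓ, hℓ, hcard⟩ := (QQ_spec n).2.2.2.2.1
  refine (galActionHom_surjective (Qrat_irreducible n) ?_ ℚ_[ℓ] ?_ FF).comp
    (Gal.restrict_surjective (Qrat n) FF)
  · rw [Qrat_natDegree]; exact pr_prime n
  · rw [Qrat_natDegree]; exact hcard

theorem card_rootSet (n : ℕ) : Nat.card ((Qrat n).rootSet FF) = pr n := by
  rw [card_rootSet_of_irreducible (Qrat_irreducible n) FF (Qrat_splits_FF n).1, Qrat_natDegree]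

theorem rho_apply (n : ℕ) (τ : FF ≃ₐ[ℚ] FF) (x : (Qrat n).rootSet FF) :
    ((rho n τ x : (Qrat n).rootSet FF) : FF) = τ x :=
  Gal.galActionHom_restrict (Qrat n) FF τ x

end Pool.Agent.H29.Bogo
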