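import Pool.Agent.H29.Bogo.FieldA

set_option autoImplicit false

namespace Pool.Agent.H29.Bogo

open Polynomial IntermediateField NumberField

/-- An automorphism acting trivially on the roots of `Q_n` has trivial square on the roots of the
reciprocal polynomial. -/
theorem sq_fix_root (n : ℕ) (τ : FF ≃ₐ[ℚ] FF) (hτ : rho n τ = 1) (b : FF)
    (hb : b ∈ (Prat n).rootSet FF) : τ (τ b) = b := by
  rw [mem_rootSet_Prat] at hb
  obtain ⟨hb0, hb1⟩ := hb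
  have hQ0 : Qrat n ≠ 0 := (Qrat_irreducible n).ne_zero
  have h1 := rho_apply n τ ⟨b + b⁻¹, mem_rootSet.mpr ⟨hQ0, hb1⟩⟩
  rw [hτ] at h1
  simp only [Equiv.Perm.coe_one, id_eq, map_add, map_inv₀] at h1
  have hτb : τ b ≠ 0 := by simpa using hb0
  have h2 : (τ b - b) * (τ b * b - 1) = 0 := by
    field_simp at h1
    linear_combination -h1
  rcases mul_eq_zero.mp h2 with h3 | h3
  · rw [sub_eq_zero] at h3
    rw [h3, h3]
  · have h4 : τ b = b⁻¹ := by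
      apply eq_inv_of_mul_eq_one_left
      linear_combination h3
    rw [h4, map_inv₀, h4, inv_inv]

/-- An automorphism acting trivially on the roots of `Q_n` for `n` in `s` has trivial square on
`⨆ n ∈ s, ℚ(roots of P_n)`. -/
theorem sq_fix (s : Finset ℕ) (τ : FF ≃ₐ[ℚ] FF) (hτ : ∀ n ∈ s, rho n τ = 1) (x : FF)
    (hx : (x : AlgebraicClosure ℚ) ∈ ⨆ n ∈ s, adjoin ℚ ((Prat n).rootSet (AlgebraicClosure ℚ))) :
    τ (τ x) = x := by
  let Fx : IntermediateField ℚ FF := fixedField (Subgroup.zpowers (τ ^ 2))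
  have hle : (⨆ n ∈ s, adjoin ℚ ((Prat n).rootSet (AlgebraicClosure ℚ))) ≤ Fx.map FF.val := by
    rw [iSup₂_le_iff]
    intro n hn
    rw [adjoin_le_iff]
    intro β hβ
    have hβF := mem_FF_of_root n β hβ
    refine ⟨⟨β, hβF⟩, ?_, rfl⟩
    have hb : (⟨β, hβF⟩ : FF) ∈ (Prat n).rootSet FF := by
      rw [mem_rootSet] at hβ ⊢
      refine ⟨hβ.1, ?_⟩
      apply (algebraMap FF (AlgebraicClosure ℚ)).injective
      rw [← aeval_algebraMap_apply, map_zero]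
      exact hβ.2
    have h1 := sq_fix_root n τ (hτ n hn) _ hb
    change (⟨β, hβF⟩ : FF) ∈ fixedField (Subgroup.zpowers (τ ^ 2))
    rw [mem_fixedField_iff]
    intro f hf
    obtain ⟨k, rfl⟩ := Subgroup.mem_zpowers_iff.mp hf
    have h2 : (τ ^ 2) ∈ MulAction.stabilizer (FF ≃ₐ[ℚ] FF) (⟨β, hβF⟩ : FF) := by
      rw [MulAction.mem_stabilizer_iff]
      exact h1
    have h3 := Subgroup.zpow_mem _ h2 k
    rw [MulAction.mem_stabilizer_iff] at h3
    exact h3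
  obtain ⟨y, hy, hyx⟩ := hle hx
  have hxy : y = x := Subtype.ext hyx
  rw [← hxy]
  have hy' : y ∈ fixedField (Subgroup.zpowers (τ ^ 2)) := hy
  rw [mem_fixedField_iff] at hy'
  exact hy' (τ ^ 2) (Subgroup.mem_zpowers _)

/-- The key consequence: the fourth power of every automorphism of `F` fixes all roots of
unity. -/
theorem pow_four_fix (ζ : FF) (m : ℕ) [NeZero m] (hζ : IsPrimitiveRoot ζ m)
    (σ : FF ≃ₐ[ℚ] FF) : (hζ.autToPow ℚ σ) ^ 4 = 1 := by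
  classical
  have hord : ∀ i j : ℕ, ζ ^ i = ζ ^ j ↔ i ≡ j [MOD m] := by
    intro i j
    have hfo : IsOfFinOrder ζ := isOfFinOrder_iff_pow_eq_one.mpr
      ⟨m, Nat.pos_of_ne_zero (NeZero.ne m), hζ.pow_eq_one⟩
    rw [hfo.pow_eq_pow_iff_modEq, ← hζ.eq_orderOf]
  have hζF : (ζ : AlgebraicClosure ℚ) ∈
      ⨆ n, adjoin ℚ ((Prat n).rootSet (AlgebraicClosure ℚ)) := by
    rw [← FF_eq_iSup]; exact ζ.2
  obtain ⟨s, hs⟩ := exists_finset_of_mem_iSup hζF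
  obtain ⟨N, hN⟩ : ∃ N : ℕ, ∀ n ∈ s, n < N :=
    ⟨s.sup id + 1, fun n hn => Nat.lt_succ_of_le (Finset.le_sup (f := id) hn)⟩
  let χ : (FF ≃ₐ[ℚ] FF) →* (ZMod m)ˣ := hζ.autToPow ℚ
  let ψ : (FF ≃ₐ[ℚ] FF) →* (ZMod m)ˣ := (powMonoidHom 2).comp χ
  have hψ : ∀ τ, ψ τ = χ τ ^ 2 := fun _ => rfl
  have key := group_lemma (Γ := FF ≃ₐ[ℚ] FF) (C := (ZMod m)ˣ) (fun n => (Qrat n).rootSet FF)
    (fun n => by rw [← Nat.card_eq_fintype_card, card_rootSet]; exact pr_prime n)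
    (fun n => by rw [← Nat.card_eq_fintype_card, card_rootSet]; exact pr_ge n)
    (fun a b hab => by
      rw [← Nat.card_eq_fintype_card, ← Nat.card_eq_fintype_card, card_rootSet, card_rootSet]
      exact pr_strictMono hab)
    rho rho_surjective ψ N ?_ σ
  · rw [hψ, ← pow_mul] at key
    exact key
  · intro τ hτ
    have h1 := sq_fix s τ (fun n hn => hτ n (hN n hn)) ζ hs
    rw [hψ, ← map_pow]
    have h2 : (τ ^ 2) ζ = ζ := h1
    have h3 := hζ.autToPow_spec ℚ (τ ^ 2)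
    rw [h2] at h3
    -- `ζ ^ v = ζ` so `v = 1` in `ZMod m`
    have h4 : ζ ^ ((hζ.autToPow ℚ (τ ^ 2) : (ZMod m)ˣ) : ZMod m).val = ζ ^ 1 := by
      rw [h3, pow_one]
    rw [hord, ← ZMod.natCast_eq_natCast_iff, ZMod.natCast_zmod_val, Nat.cast_one] at h4
    exact Units.ext h4

theorem modEq_of_coprime (ζ : FF) (m : ℕ) (hm : 0 < m) (hζ : IsPrimitiveRoot ζ m) (a : ℕ)
    (ha : a.Coprime m) : a ^ 4 ≡ 1 [MOD m] := by
  have : NeZero m := ⟨hm.ne'⟩
  have hord : ∀ i j : ℕ, ζ ^ i = ζ ^ j ↔ i ≡ j [MOD m] := by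
    intro i j
    have hfo : IsOfFinOrder ζ := isOfFinOrder_iff_pow_eq_one.mpr
      ⟨m, Nat.pos_of_ne_zero (NeZero.ne m), hζ.pow_eq_one⟩
    rw [hfo.pow_eq_pow_iff_modEq, ← hζ.eq_orderOf]
  have h1 : IsPrimitiveRoot (ζ ^ a) m := hζ.pow_of_coprime a ha
  have h2 : minpoly ℚ (ζ ^ a) = minpoly ℚ ζ := by
    rw [← cyclotomic_eq_minpoly_rat h1 hm, ← cyclotomic_eq_minpoly_rat hζ hm]
  rw [Normal.minpoly_eq_iff_mem_orbit] at h2
  obtain ⟨σ, hσ⟩ := h2
  have hσ' : σ ζ = ζ ^ a := hσ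
  have h3 := hζ.autToPow_spec ℚ σ
  rw [hσ'] at h3
  rw [hord, ← ZMod.natCast_eq_natCast_iff, ZMod.natCast_zmod_val] at h3
  have h4 := pow_four_fix ζ m hζ σ
  have h5 := congrArg (fun u : (ZMod m)ˣ => (u : ZMod m)) h4
  simp only [Units.val_pow_eq_pow_val, Units.val_one] at h5
  rw [h3] at h5
  rw [← ZMod.natCast_eq_natCast_iff]
  push_cast
  exact h5

/-- Every root of unity in `F` has order dividing `240`. -/
theorem pow_240 (ζ : FF) (n : ℕ) (hn : 0 < n) (hζ : ζ ^ n = 1) : ζ ^ 240 = 1 := by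
  have hfin : IsOfFinOrder ζ := isOfFinOrder_iff_pow_eq_one.mpr ⟨n, hn, hζ⟩
  set m := orderOf ζ with hm
  have hm0 : 0 < m := hfin.orderOf_pos
  have hprim : IsPrimitiveRoot ζ m := IsPrimitiveRoot.orderOf ζ
  obtain ⟨k, m', hodd, hmk⟩ := Nat.exists_eq_two_pow_mul_odd hm0.ne'
  have hm'0 : 0 < m' := hodd.pos
  -- odd part
  have h1 : IsPrimitiveRoot (ζ ^ 2 ^ k) m' := hprim.pow hm0 hmk
  have h2 := modEq_of_coprime _ m' hm'0 h1 2 (Nat.coprime_two_left.mpr hodd)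
  have h3 : m' ∣ 15 := by
    have := (Nat.modEq_iff_dvd' (by norm_num)).mp h2.symm
    simpa using this
  -- even part
  have h4 : IsPrimitiveRoot (ζ ^ m') (2 ^ k) := hprim.pow hm0 (by rw [hmk, mul_comm])
  have h5 := modEq_of_coprime _ (2 ^ k) (by positivity) h4 3 (Nat.Coprime.pow_right k (by norm_num))
  have h6 : 2 ^ k ∣ 80 := by
    have := (Nat.modEq_iff_dvd' (by norm_num)).mp h5.symm
    simpa using this
  have h7 : 2 ^ k ∣ 16 := by
    have h8 : (80 : ℕ) = 16 * 5 := by norm_num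
    rw [h8] at h6
    exact (Nat.Coprime.pow_left k (by norm_num)).dvd_of_dvd_mul_right h6
  have h9 : m ∣ 240 := by
    rw [hmk]
    exact (Nat.mul_dvd_mul h7 h3 : 2 ^ k * m' ∣ 16 * 15)
  obtain ⟨c, hc⟩ := h9
  rw [hc, pow_mul, hm, pow_orderOf_eq_one, one_pow]

end Pool.Agent.H29.Bogo
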