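import Pool.Agent.H29.Bogo.FieldB

set_option autoImplicit false

namespace Pool.Agent.H29.Bogo

open Polynomial IntermediateField NumberField

/-- Two embeddings of `F` in a field agree if they agree on the roots of the `P_n`. -/
theorem algHom_ext_FF {E : Type*} [Field E] [Algebra ℚ E] (f g : FF →ₐ[ℚ] E)
    (h : ∀ (n : ℕ) (b : FF), b ∈ (Prat n).rootSet FF → f b = g b) : f = g := by
  apply algHom_ext_of_eq_adjoin ℚ (S := FF) (s := ⋃ n, (Prat n).rootSet (AlgebraicClosure ℚ)) rfl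
  intro x hx
  obtain ⟨n, hn⟩ := Set.mem_iUnion.mp hx
  apply h n
  rw [mem_rootSet] at hn ⊢
  refine ⟨hn.1, ?_⟩
  apply (algebraMap FF (AlgebraicClosure ℚ)).injective
  rw [← aeval_algebraMap_apply, map_zero]
  exact hn.2

theorem map_mem_rootSet {E E' : Type*} [Field E] [Algebra ℚ E] [Field E'] [Algebra ℚ E']
    (f : E →ₐ[ℚ] E') (n : ℕ) (b : E) (hb : b ∈ (Prat n).rootSet E) : f b ∈ (Prat n).rootSet E' := by
  rw [mem_rootSet] at hb ⊢
  refine ⟨hb.1, ?_⟩
  rw [aeval_algHom_apply, hb.2, map_zero]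

/-- For a complex embedding, complex conjugation inverts the roots of `P_n`. -/
theorem conj_eq_inv (n : ℕ) (z : ℂ) (hz : z ∈ (Prat n).rootSet ℂ) : (starRingEnd ℂ) z = z⁻¹ := by
  have h1 := norm_of_mem_rootSet_Prat n z hz
  rw [Complex.inv_def, Complex.normSq_eq_norm_sq, h1]
  simp

/-- There is an automorphism `c` of `F` inverting all roots of all `P_n`. -/
theorem exists_conj : ∃ c : FF ≃ₐ[ℚ] FF,
    ∀ (n : ℕ) (b : FF), b ∈ (Prat n).rootSet FF → c b = b⁻¹ := by
  let ι : FF →ₐ[ℚ] ℂ := IsAlgClosed.lift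
  let _ : Algebra FF ℂ := ι.toRingHom.toAlgebra
  have : IsScalarTower ℚ FF ℂ := IsScalarTower.of_algebraMap_eq fun x => (ι.commutes x).symm
  let c : FF ≃ₐ[ℚ] FF := (Complex.conjAe.restrictScalars ℚ).restrictNormal FF
  refine ⟨c, fun n b hb => ?_⟩
  apply ι.injective
  have h1 : ι (c b) = (starRingEnd ℂ) (ι b) :=
    AlgEquiv.restrictNormal_commutes (Complex.conjAe.restrictScalars ℚ) FF b
  change ι (c b) = ι b⁻¹
  rw [h1, map_inv₀]
  exact conj_eq_inv n _ (map_mem_rootSet ι n b hb)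

/-- The automorphism of `F` induced by complex conjugation. -/
noncomputable def cc : FF ≃ₐ[ℚ] FF := exists_conj.choose

theorem cc_spec (n : ℕ) (b : FF) (hb : b ∈ (Prat n).rootSet FF) : cc b = b⁻¹ :=
  exists_conj.choose_spec n b hb

theorem inv_mem_rootSet (n : ℕ) {E : Type*} [Field E] [Algebra ℚ E] (b : E)
    (hb : b ∈ (Prat n).rootSet E) : b⁻¹ ∈ (Prat n).rootSet E := by
  rw [mem_rootSet_Prat] at hb ⊢
  exact ⟨inv_ne_zero hb.1, by rw [inv_inv, add_comm]; exact hb.2⟩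

theorem cc_sq : cc ^ 2 = 1 := by
  have h : ((cc ^ 2 : FF ≃ₐ[ℚ] FF) : FF →ₐ[ℚ] FF) = ((1 : FF ≃ₐ[ℚ] FF) : FF →ₐ[ℚ] FF) := by
    apply algHom_ext_FF
    intro n b hb
    change cc (cc b) = b
    rw [cc_spec n b hb, cc_spec n _ (inv_mem_rootSet n b hb), inv_inv]
  ext x
  exact congrArg Subtype.val (DFunLike.congr_fun h x)

theorem cc_comm (σ : FF ≃ₐ[ℚ] FF) : σ * cc = cc * σ := by
  have h : ((σ * cc : FF ≃ₐ[ℚ] FF) : FF →ₐ[ℚ] FF) = ((cc * σ : FF ≃ₐ[ℚ] FF) : FF →ₐ[ℚ] FF) := by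
    apply algHom_ext_FF
    intro n b hb
    change σ (cc b) = cc (σ b)
    have h1 : σ b ∈ (Prat n).rootSet FF := map_mem_rootSet (σ : FF →ₐ[ℚ] FF) n b hb
    rw [cc_spec n b hb, cc_spec n _ h1, map_inv₀]
  ext x
  exact congrArg Subtype.val (DFunLike.congr_fun h x)

/-- The field `F₀`: the fixed field of `c`. -/
noncomputable def FF0 : IntermediateField ℚ FF := fixedField (Subgroup.zpowers cc)

theorem mem_FF0 (x : FF) (hx : x ∈ FF0) : cc x = x :=
  (mem_fixedField_iff _ _).mp hx cc (Subgroup.mem_zpowers _)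

instance FF0_finite : FiniteDimensional FF0 FF := by
  have : Finite (Subgroup.zpowers cc) := by
    rw [← SetLike.coe_sort_coe, Set.finite_coe_iff]
    exact (isOfFinOrder_iff_pow_eq_one.mpr ⟨2, by norm_num, cc_sq⟩ :
      IsOfFinOrder cc).finite_zpowers
  exact inferInstanceAs (FiniteDimensional (FixedPoints.subfield (Subgroup.zpowers cc) FF) FF)

instance FF0_isGalois : IsGalois ℚ FF0 := by
  have : (Subgroup.zpowers cc).Normal := by
    refine ⟨fun n hn g => ?_⟩
    obtain ⟨k, rfl⟩ := Subgroup.mem_zpowers_iff.mp hn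
    have h : Commute g cc := cc_comm g
    rw [(h.zpow_right k).eq, mul_assoc, mul_inv_cancel, mul_one]
    exact Subgroup.zpow_mem _ (Subgroup.mem_zpowers _) k
  exact IsGalois.of_fixedField_normal_subgroup (Subgroup.zpowers cc)

/-- All conjugates of elements of `F₀` are real. -/
theorem real_of_FF0 (x : FF0) (z : ℂ) (hz : z ∈ (minpoly ℚ x).rootSet ℂ) : z.im = 0 := by
  have h1 : minpoly ℚ (x : FF) = minpoly ℚ x :=
    minpoly.algebraMap_eq (algebraMap FF0 FF).injective x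
  rw [← h1, ← Algebra.IsAlgebraic.range_eval_eq_rootSet_minpoly ℂ (x : FF)] at hz
  obtain ⟨φ, rfl⟩ := hz
  have h2 : ((Complex.conjAe.restrictScalars ℚ : ℂ ≃ₐ[ℚ] ℂ) : ℂ →ₐ[ℚ] ℂ).comp φ =
      φ.comp (cc : FF →ₐ[ℚ] FF) := by
    apply algHom_ext_FF
    intro n b hb
    change (starRingEnd ℂ) (φ b) = φ (cc b)
    rw [cc_spec n b hb, map_inv₀]
    exact conj_eq_inv n _ (map_mem_rootSet φ n b hb)
  have h3 := DFunLike.congr_fun h2 (x : FF)
  have h4 : (starRingEnd ℂ) (φ (x : FF)) = φ (x : FF) := by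
    change (starRingEnd ℂ) (φ (x : FF)) = φ (cc (x : FF)) at h3
    rw [h3, mem_FF0 _ x.2]
  exact Complex.conj_eq_iff_im.mp h4

theorem natDegree_le_of_pow_eq_one (b : FF) (k : ℕ) (hk : 0 < k) (h : b ^ k = 1) :
    (minpoly ℚ b).natDegree ≤ k := by
  have h1 : minpoly ℚ b ∣ X ^ k - C 1 := by
    apply minpoly.dvd
    simp [h]
  have h3 : (X ^ k - C 1 : ℚ[X]).natDegree = k := natDegree_X_pow_sub_C
  have h2 := natDegree_le_of_dvd h1 (X_pow_sub_C_ne_zero hk 1)
  omega

/-- Elements of `F` of small height. -/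
theorem exists_small (n : ℕ) (hn : 240 < pr n) : ∃ b : FF, b ≠ 0 ∧ (¬ ∃ k : ℕ, 0 < k ∧ b ^ k = 1) ∧
    absLogHeight₁ b ≤ Real.log (9 * (pr n : ℝ) ^ 2) / pr n := by
  obtain ⟨β, hβ⟩ : ∃ β : AlgebraicClosure ℚ, aeval β (Prat n) = 0 := by
    apply IsAlgClosed.exists_aeval_eq_zero
    rw [degree_eq_natDegree (Prat_ne_zero n)]
    have h1 : (Prat n).natDegree = (recip (QQ n)).natDegree :=
      natDegree_map_eq_of_injective (algebraMap ℤ ℚ).injective_int _
    have h2 : 2 * pr n ≤ (recip (QQ n)).natDegree := by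
      apply le_natDegree_of_ne_zero
      rw [← QQ_natDegree n, recip_coeff_top]
      exact leadingCoeff_ne_zero.mpr (QQ_ne_zero n)
    have h3 : (Prat n).natDegree ≠ 0 := by omega
    exact_mod_cast h3
  have hβr : β ∈ (Prat n).rootSet (AlgebraicClosure ℚ) := mem_rootSet.mpr ⟨Prat_ne_zero n, hβ⟩
  have hβF := mem_FF_of_root n β hβr
  set b : FF := ⟨β, hβF⟩ with hb
  have hbr : b ∈ (Prat n).rootSet FF := by
    rw [mem_rootSet]
    refine ⟨Prat_ne_zero n, ?_⟩
    apply (algebraMap FF (AlgebraicClosure ℚ)).injective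
    rw [← aeval_algebraMap_apply, map_zero]
    exact hβ
  have hb1 := (mem_rootSet_Prat n b).mp hbr
  have hint : IsIntegral ℚ b := Algebra.IsIntegral.isIntegral b
  -- the degree of `b`
  have hdeg : pr n ≤ (minpoly ℚ b).natDegree := by
    have hfd : FiniteDimensional ℚ ℚ⟮b⟯ := adjoin.finiteDimensional hint
    rw [← adjoin.finrank hint]
    set t : ℚ⟮b⟯ := AdjoinSimple.gen ℚ b + (AdjoinSimple.gen ℚ b)⁻¹ with ht
    have hroot : aeval t (Qrat n) = 0 := by
      apply (algebraMap ℚ⟮b⟯ FF).injective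
      rw [← aeval_algebraMap_apply, map_zero]
      exact hb1.2
    have h1 := minpoly.natDegree_le (A := ℚ) t
    have h2 : (minpoly ℚ t).natDegree = pr n := by
      rw [← Qrat_natDegree n, ← minpoly.eq_of_irreducible (Qrat_irreducible n) hroot]
      rw [natDegree_mul (Qrat_irreducible n).ne_zero, natDegree_C, add_zero]
      simpa using (Qrat_irreducible n).ne_zero
    rwa [h2] at h1
  refine ⟨b, hb1.1, ?_, ?_⟩
  · rintro ⟨k, hk, hk2⟩
    have h240 := pow_240 b k hk hk2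
    have h1 := natDegree_le_of_pow_eq_one b 240 (by norm_num) h240
    omega
  · have hroots : ∀ z ∈ (minpoly ℚ b).rootSet ℂ, ‖z‖ = 1 := by
      intro z hz
      apply norm_of_mem_rootSet_Prat n
      rw [mem_rootSet] at hz ⊢
      refine ⟨Prat_ne_zero n, ?_⟩
      obtain ⟨h, hh⟩ := minpoly.dvd ℚ b (mem_rootSet.mp hbr).2
      rw [hh, map_mul, hz.2, zero_mul]
    have hup := absLogHeight_upper b hint (recip (QQ n)) (recip_ne_zero n) (by
      have := (mem_rootSet.mp hbr).2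
      rwa [Prat, aeval_map_algebraMap] at this) hroots
    rw [recip_leadingCoeff] at hup
    have hA0 : (0 : ℝ) < ((QQ n).leadingCoeff : ℝ) := by exact_mod_cast (QQ_spec n).2.1
    have hA1 : (1 : ℝ) ≤ ((QQ n).leadingCoeff : ℝ) := by exact_mod_cast (QQ_spec n).2.1
    have hA2 : ((QQ n).leadingCoeff : ℝ) ≤ 9 * (pr n : ℝ) ^ 2 := by
      exact_mod_cast (QQ_spec n).2.2.1
    rw [abs_of_pos hA0] at hup
    refine hup.trans ?_
    have hp0 : (0 : ℝ) < pr n := by exact_mod_cast (pr_prime n).pos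
    have hlog : 0 ≤ Real.log (9 * (pr n : ℝ) ^ 2) := Real.log_nonneg (hA1.trans hA2)
    calc Real.log ((QQ n).leadingCoeff : ℝ) / ((minpoly ℚ b).natDegree : ℝ)
        ≤ Real.log (9 * (pr n : ℝ) ^ 2) / ((minpoly ℚ b).natDegree : ℝ) := by gcongr
      _ ≤ Real.log (9 * (pr n : ℝ) ^ 2) / pr n := by
          gcongr

theorem tendsto_small : Filter.Tendsto (fun n : ℕ => Real.log (9 * (pr n : ℝ) ^ 2) / pr n)
    Filter.atTop (nhds 0) := by
  have hpr : Filter.Tendsto (fun n : ℕ => (pr n : ℝ)) Filter.atTop Filter.atTop :=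
    tendsto_natCast_atTop_atTop.comp pr_strictMono.tendsto_atTop
  have h1 : Filter.Tendsto (fun x : ℝ => Real.log x / x) Filter.atTop (nhds 0) :=
    Real.isLittleO_log_id_atTop.tendsto_div_nhds_zero
  have h2 : Filter.Tendsto (fun x : ℝ => Real.log 9 / x + 2 * (Real.log x / x)) Filter.atTop
      (nhds (0 + 2 * 0)) :=
    (Filter.Tendsto.div_atTop tendsto_const_nhds Filter.tendsto_id).add (h1.const_mul 2)
  have h3 := h2.comp hpr
  rw [mul_zero, add_zero] at h3
  refine h3.congr fun n => ?_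
  have hp0 : (0 : ℝ) < pr n := by exact_mod_cast (pr_prime n).pos
  simp only [Function.comp]
  rw [Real.log_mul (by norm_num) (by positivity), Real.log_pow]
  push_cast
  ring

end Pool.Agent.H29.Bogo
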