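import Mathlib

set_option autoImplicit false

namespace Pool.Agent.H29.Bogo

open Equiv Equiv.Perm

/-- A non-identity permutation of a set with at least three elements does not commute with
some permutation. -/
theorem exists_not_commute {X : Type*} [Fintype X] [DecidableEq X] (h3 : 3 ≤ Fintype.card X)
    (c : Perm X) (hc : c ≠ 1) : ∃ s : Perm X, c * s * c⁻¹ * s⁻¹ ≠ 1 := by
  obtain ⟨x, hx⟩ : ∃ x, c x ≠ x := by
    by_contra h
    push Not at h
    exact hc (Equiv.ext h)
  obtain ⟨z, hz⟩ : ∃ z, z ∉ ({x, c x} : Finset X) := by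
    by_contra h
    push Not at h
    have : (Finset.univ : Finset X) ⊆ {x, c x} := fun y _ => h y
    have h2 := Finset.card_le_card this
    have h3' : ({x, c x} : Finset X).card ≤ 2 := Finset.card_le_two
    rw [Finset.card_univ] at h2
    omega
  simp only [Finset.mem_insert, Finset.mem_singleton, not_or] at hz
  refine ⟨swap (c x) z, fun h => ?_⟩
  have h1 : c * swap (c x) z = swap (c x) z * c := by
    have : c * swap (c x) z * c⁻¹ * (swap (c x) z)⁻¹ * (swap (c x) z) * c
        = 1 * (swap (c x) z) * c := by rw [h]
    simpa [mul_assoc] using this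
  have h2 : (c * swap (c x) z) x = (swap (c x) z * c) x := by rw [h1]
  simp only [Perm.mul_apply, swap_apply_left] at h2
  rw [swap_apply_of_ne_of_ne (Ne.symm hx) (Ne.symm hz.1)] at h2
  exact hz.2 h2.symm

/-- The group theoretic lemma: if a group surjects onto symmetric groups of distinct prime degrees
at least `5`, then every homomorphism to a commutative group which factors through finitely many
of these surjections (jointly) kills all squares. -/
theorem group_lemma {Γ C : Type*} [Group Γ] [CommGroup C] (X : ℕ → Type*)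
    [∀ n, Fintype (X n)] [∀ n, DecidableEq (X n)]
    (hprime : ∀ n, (Fintype.card (X n)).Prime) (h5 : ∀ n, 5 ≤ Fintype.card (X n))
    (hmono : ∀ m n, m < n → Fintype.card (X m) < Fintype.card (X n))
    (ρ : ∀ n, Γ →* Perm (X n)) (hρ : ∀ n, Function.Surjective (ρ n))
    (ψ : Γ →* C) (N : ℕ) (hψ : ∀ τ : Γ, (∀ n < N, ρ n τ = 1) → ψ τ = 1) (σ : Γ) :
    ψ σ ^ 2 = 1 := by
  have key : ∀ k ≤ N, ∀ τ : Γ, (∀ n < N - k, ρ n τ = 1) → (∀ n < N, sign (ρ n τ) = 1) →
      ψ τ = 1 := by
    intro k
    induction k with
    | zero => intro _ τ h1 _; exact hψ τ (by simpa using h1)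
    | succ k ih =>
      intro hk τ h1 h2
      set j := N - (k + 1) with hj
      have hj1 : N - k = j + 1 := by omega
      have hjN : j < N := by omega
      have ih' := ih (by omega)
      rw [hj1] at ih'
      -- the normal subgroup `T`
      let T : Subgroup Γ :=
        { carrier := {τ | (∀ n < j, ρ n τ = 1) ∧ (∀ n < N, sign (ρ n τ) = 1) ∧ ψ τ = 1}
          mul_mem' := by
            rintro a b ⟨ha1, ha2, ha3⟩ ⟨hb1, hb2, hb3⟩
            refine ⟨fun n hn => ?_, fun n hn => ?_, ?_⟩
            · rw [map_mul, ha1 n hn, hb1 n hn, one_mul]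
            · rw [map_mul, map_mul, ha2 n hn, hb2 n hn, one_mul]
            · rw [map_mul, ha3, hb3, one_mul]
          one_mem' := ⟨fun n _ => map_one _, fun n _ => by rw [map_one, map_one], map_one _⟩
          inv_mem' := by
            rintro a ⟨ha1, ha2, ha3⟩
            refine ⟨fun n hn => ?_, fun n hn => ?_, ?_⟩
            · rw [map_inv, ha1 n hn, inv_one]
            · rw [map_inv, map_inv, ha2 n hn, inv_one]
            · rw [map_inv, ha3, inv_one] }
      have hTmem : ∀ t, t ∈ T ↔ (∀ n < j, ρ n t = 1) ∧ (∀ n < N, sign (ρ n t) = 1) ∧ ψ t = 1 :=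
        fun t => Iff.rfl
      have hTn : T.Normal := by
        refine ⟨fun a ha g => ?_⟩
        rw [hTmem] at ha ⊢
        obtain ⟨ha1, ha2, ha3⟩ := ha
        refine ⟨fun n hn => ?_, fun n hn => ?_, ?_⟩
        · rw [map_mul, map_mul, ha1 n hn, mul_one, ← map_mul, mul_inv_cancel, map_one]
        · rw [map_mul, map_mul, map_mul, map_mul, ha2 n hn, mul_one, map_inv, map_inv,
            mul_inv_cancel]
        · rw [map_mul, map_mul, ha3, mul_one, map_inv, mul_inv_cancel]
      let V : Subgroup (Perm (X j)) := T.map (ρ j)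
      have hVn : V.Normal := hTn.map (ρ j) (hρ j)
      have hVle : V ≤ alternatingGroup (X j) := by
        rintro _ ⟨t, ht, rfl⟩
        exact mem_alternatingGroup.mpr (ht.2.1 j hjN)
      -- a nontrivial element of `V`
      have hVne : ∃ v ∈ V, v ≠ 1 := by
        have hp := hprime j
        haveI : Fact (Fintype.card (X j)).Prime := ⟨hp⟩
        have hdvd : Fintype.card (X j) ∣ Nat.card (Perm (X j)) := by
          rw [Nat.card_eq_fintype_card, Fintype.card_perm]
          exact Nat.dvd_factorial hp.pos le_rfl
        obtain ⟨c, hc⟩ := exists_prime_orderOf_dvd_card' (G := Perm (X j)) _ hdvd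
        obtain ⟨g, hg⟩ := hρ j c
        set M := 2 * ∏ n ∈ Finset.range j, (Fintype.card (X n)).factorial with hM
        have hcop : ¬ Fintype.card (X j) ∣ M := by
          rw [hM, hp.dvd_mul, hp.prime.dvd_finset_prod_iff]
          rintro (h | ⟨n, hn, h⟩)
          · have := Nat.le_of_dvd (by norm_num) h
            have := h5 j
            omega
          · rw [hp.dvd_factorial] at h
            have := hmono n j (Finset.mem_range.mp hn)
            omega
        have hcM : c ^ M ≠ 1 := by
          intro h
          exact hcop (hc ▸ orderOf_dvd_of_pow_eq_one h)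
        obtain ⟨s, hs⟩ := exists_not_commute (by have := h5 j; omega) (c ^ M) hcM
        obtain ⟨h, hh⟩ := hρ j s
        refine ⟨c ^ M * s * (c ^ M)⁻¹ * s⁻¹, ⟨g ^ M * h * (g ^ M)⁻¹ * h⁻¹, ?_, ?_⟩, hs⟩
        · refine (hTmem _).mpr ⟨fun n hn => ?_, fun n hn => ?_, ?_⟩
          · have : ρ n (g ^ M) = 1 := by
              rw [map_pow]
              have hd : Fintype.card (Perm (X n)) ∣ M := by
                rw [Fintype.card_perm, hM]
                exact Dvd.dvd.mul_left (Finset.dvd_prod_of_mem _ (Finset.mem_range.mpr hn)) 2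
              obtain ⟨r, hr⟩ := hd
              rw [hr, pow_mul, pow_card_eq_one, one_pow]
            simp only [map_mul, map_inv, this, one_mul, inv_one, mul_one, mul_inv_cancel]
          · simp only [map_mul, map_inv]
            rw [mul_comm (sign ((ρ n) (g ^ M))) (sign ((ρ n) h)), mul_assoc, mul_assoc]
            rw [← mul_assoc (sign ((ρ n) (g ^ M))), mul_inv_cancel, one_mul, mul_inv_cancel]
          · simp only [map_mul, map_inv]
            rw [mul_comm (ψ (g ^ M)) (ψ h), mul_assoc, mul_assoc]
            rw [← mul_assoc (ψ (g ^ M)), mul_inv_cancel, one_mul, mul_inv_cancel]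
        · simp only [map_mul, map_inv, map_pow, hg, hh]
      -- `V` is the alternating group
      have hVeq : V = alternatingGroup (X j) := by
        haveI : IsSimpleGroup (alternatingGroup (X j)) :=
          alternatingGroup.isSimpleGroup (by rw [Nat.card_eq_fintype_card]; exact h5 j)
        have hn : (V.subgroupOf (alternatingGroup (X j))).Normal := inferInstance
        rcases hn.eq_bot_or_eq_top with hb | ht
        · exfalso
          obtain ⟨v, hv, hv1⟩ := hVne
          have : (⟨v, hVle hv⟩ : alternatingGroup (X j)) ∈ V.subgroupOf (alternatingGroup (X j)) :=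
            Subgroup.mem_subgroupOf.mpr hv
          rw [hb, Subgroup.mem_bot] at this
          exact hv1 (congrArg Subtype.val this)
        · exact le_antisymm hVle (Subgroup.subgroupOf_eq_top.mp ht)
      have hτV : ρ j τ ∈ V := by
        rw [hVeq]; exact mem_alternatingGroup.mpr (h2 j hjN)
      obtain ⟨τ', hτ', hτ'2⟩ := hτV
      have hτ'3 := (hTmem τ').mp hτ'
      have : ψ (τ'⁻¹ * τ) = 1 := by
        apply ih'
        · intro n hn
          rcases Nat.lt_succ_iff_lt_or_eq.mp hn with hn | rfl
          · rw [map_mul, map_inv, hτ'3.1 n hn, h1 n hn, inv_one, one_mul]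
          · rw [map_mul, map_inv, hτ'2, inv_mul_cancel]
        · intro n hn
          rw [map_mul, map_mul, map_inv, map_inv, hτ'3.2.1 n hn, h2 n hn, inv_one, one_mul]
      rw [map_mul, map_inv, hτ'3.2.2, inv_one, one_mul] at this
      exact this
  have := key N le_rfl (σ ^ 2) (by simp) (by
    intro n _
    rw [map_pow, map_pow]
    exact Int.units_sq _)
  rwa [map_pow] at this

end Pool.Agent.H29.Bogo
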