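import Mathlib

set_option autoImplicit false

namespace Pool.Agent.H29.Bogo

open Polynomial

/-- The (monic) Chebyshev polynomial `C_n` over `ℤ`, with the value at `0` changed to `1`. -/
noncomputable def Cheb (n : ℕ) : ℤ[X] := if n = 0 then 1 else Chebyshev.C ℤ n

theorem chebC_monic : ∀ n : ℕ, 1 ≤ n →
    (Chebyshev.C ℤ n).Monic ∧ (Chebyshev.C ℤ n).natDegree = n
  | 0, h => absurd h (by norm_num)
  | 1, _ => by simp [monic_X]
  | 2, _ => by
    have h : Chebyshev.C ℤ (2 : ℕ) = X ^ 2 - C 2 := by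
      rw [Nat.cast_ofNat, Chebyshev.C_two]; rfl
    rw [h]
    exact ⟨monic_X_pow_sub_C 2 (by norm_num), natDegree_X_pow_sub_C⟩
  | n + 3, _ => by
    obtain ⟨h1, h1'⟩ := chebC_monic (n + 1) (by omega)
    obtain ⟨h2, h2'⟩ := chebC_monic (n + 2) (by omega)
    have h : Chebyshev.C ℤ ((n + 3 : ℕ) : ℤ) =
        X * Chebyshev.C ℤ ((n + 2 : ℕ) : ℤ) - Chebyshev.C ℤ ((n + 1 : ℕ) : ℤ) := by
      have := Chebyshev.C_add_two ℤ ((n + 1 : ℕ) : ℤ)
      have e1 : (((n + 3 : ℕ) : ℤ)) = ((n + 1 : ℕ) : ℤ) + 2 := by push_cast; ring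
      have e2 : (((n + 2 : ℕ) : ℤ)) = ((n + 1 : ℕ) : ℤ) + 1 := by push_cast; ring
      rw [e1, e2]; exact this
    have hm : (X * Chebyshev.C ℤ ((n + 2 : ℕ) : ℤ)).Monic := monic_X.mul h2
    have hd : (X * Chebyshev.C ℤ ((n + 2 : ℕ) : ℤ)).natDegree = n + 3 := by
      rw [monic_X.natDegree_mul h2, h2', natDegree_X]; ring
    have hlt : (Chebyshev.C ℤ ((n + 1 : ℕ) : ℤ)).degree <
        (X * Chebyshev.C ℤ ((n + 2 : ℕ) : ℤ)).degree := by
      rw [degree_eq_natDegree h1.ne_zero, degree_eq_natDegree hm.ne_zero, h1', hd]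
      exact_mod_cast (by omega : n + 1 < n + 3)
    rw [h]
    refine ⟨hm.sub_of_left hlt, ?_⟩
    rw [natDegree_sub_eq_left_of_natDegree_lt, hd]
    rw [h1', hd]; omega

theorem cheb_monic (n : ℕ) : (Cheb n).Monic := by
  unfold Cheb
  split_ifs with h
  · exact monic_one
  · exact (chebC_monic n (by omega)).1

theorem cheb_natDegree (n : ℕ) : (Cheb n).natDegree = n := by
  unfold Cheb
  split_ifs with h
  · rw [h]; simp
  · exact (chebC_monic n (by omega)).2

theorem chebC_eval (n : ℕ) (θ : ℝ) :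
    (Chebyshev.C ℤ (n : ℤ)).eval₂ (Int.castRingHom ℝ) (2 * Real.cos θ) = 2 * Real.cos (n * θ) := by
  have h := Chebyshev.C_two_mul_real_cos θ (n : ℤ)
  rw [← Chebyshev.map_C (Int.castRingHom ℝ), eval_map] at h
  rw [h]; simp

theorem cheb_bound (n : ℕ) (t : ℝ) (ht : |t| ≤ 2) :
    |(Cheb n).eval₂ (Int.castRingHom ℝ) t| ≤ 2 := by
  have h1 := abs_le.mp ht
  unfold Cheb
  split_ifs with h
  · simp
  · have : t = 2 * Real.cos (Real.arccos (t / 2)) := by
      rw [Real.cos_arccos] <;> linarith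
    rw [this, chebC_eval]
    rw [abs_mul, abs_two]
    have := Real.abs_cos_le_one (n * Real.arccos (t / 2))
    linarith

/-- Integer polynomials of degree `< m` with prescribed reduction modulo `M` and small sup norm
on `[-2, 2]`. -/
theorem approx (M : ℕ) (hM : 0 < M) (m : ℕ) : ∀ g : ℤ[X], g.degree < m →
    ∃ R : ℤ[X], R.degree < m ∧ (∃ S : ℤ[X], R - g = C (M : ℤ) * S) ∧
      ∀ t : ℝ, |t| ≤ 2 → |R.eval₂ (Int.castRingHom ℝ) t| ≤ 2 * m * M := by
  induction m with
  | zero =>
    intro g hg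
    have : g = 0 := by
      rw [← degree_eq_bot]
      exact Nat.WithBot.lt_zero_iff.mp (by simpa using hg)
    refine ⟨0, by simp, ⟨0, by simp [this]⟩, by intro t _; simp⟩
  | succ m ih =>
    intro g hg
    set a := g.coeff m with ha
    have hdeg : (g - C a * Cheb m).degree < m := by
      rw [degree_lt_iff_coeff_zero]
      intro j hj
      rw [coeff_sub, coeff_C_mul]
      rcases eq_or_lt_of_le hj with rfl | hlt
      · have := (cheb_monic m).coeff_natDegree
        rw [cheb_natDegree] at this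
        rw [this, mul_one, sub_self]
      · have h1 : g.coeff j = 0 := by
          rw [degree_lt_iff_coeff_zero] at hg
          exact hg j hlt
        have h2 : (Cheb m).coeff j = 0 := by
          apply coeff_eq_zero_of_natDegree_lt
          rw [cheb_natDegree]; exact hlt
        rw [h1, h2]; simp
    obtain ⟨R', hR'1, ⟨S', hS'⟩, hR'3⟩ := ih _ hdeg
    have hMz : (0 : ℤ) < M := by exact_mod_cast hM
    refine ⟨R' + C (a % M) * Cheb m, ?_, ⟨S' - C (a / M) * Cheb m, ?_⟩, ?_⟩
    · apply (degree_add_le _ _).trans_lt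
      rw [max_lt_iff]
      constructor
      · exact hR'1.trans (by exact_mod_cast Nat.lt_succ_self m)
      · apply (degree_mul_le _ _).trans_lt
        have h1 : (Cheb m).degree = m := by
          rw [degree_eq_natDegree (cheb_monic m).ne_zero, cheb_natDegree]
        rw [h1]
        calc (C (a % (M : ℤ))).degree + (m : WithBot ℕ) ≤ 0 + m := by
              gcongr; exact degree_C_le
          _ < ((m + 1 : ℕ) : WithBot ℕ) := by
              rw [zero_add]; exact_mod_cast Nat.lt_succ_self m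
    · have h1 : a = M * (a / M) + a % M := (Int.mul_ediv_add_emod a M).symm
      have h2 : (C a : ℤ[X]) = C (M : ℤ) * C (a / M) + C (a % M) := by
        rw [← C_mul, ← C_add, ← h1]
      have h3 : R' = C (M : ℤ) * S' + (g - C a * Cheb m) := by
        rw [← hS']; ring
      rw [h3, h2]; ring
    · intro t ht
      rw [eval₂_add, eval₂_mul, eval₂_C]
      have h1 := hR'3 t ht
      have h2 := cheb_bound m t ht
      have h3 : |((Int.castRingHom ℝ) (a % M) : ℝ)| ≤ M := by
        rw [eq_intCast, abs_of_nonneg (by exact_mod_cast Int.emod_nonneg a hMz.ne')]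
        exact_mod_cast (Int.emod_lt_of_pos a hMz).le
      refine (abs_add_le _ _).trans ?_
      rw [abs_mul]
      calc _ ≤ 2 * (m : ℝ) * M + M * 2 := by gcongr
        _ = 2 * ((m + 1 : ℕ) : ℝ) * M := by push_cast; ring

/-- Real roots: if `Q = A * C_p + R` with `|R| < 2 A` on `[-2, 2]`, then all complex roots of `Q`
are real and lie in `(-2, 2)`. -/
theorem real_roots (p : ℕ) (hp : 1 ≤ p) (A : ℤ) (R : ℤ[X]) (hdR : R.degree < p)
    (hR : ∀ t : ℝ, |t| ≤ 2 → |R.eval₂ (Int.castRingHom ℝ) t| < 2 * A) (z : ℂ)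
    (hz : aeval z (C A * Chebyshev.C ℤ p + R) = 0) :
    ∃ t : ℝ, z = t ∧ |t| < 2 := by
  classical
  set Q : ℤ[X] := C A * Chebyshev.C ℤ p + R with hQ
  have hA : (0 : ℝ) < A := by
    have := hR 0 (by norm_num)
    have := abs_nonneg (R.eval₂ (Int.castRingHom ℝ) 0)
    linarith
  have hAz : A ≠ 0 := by
    intro h; rw [h] at hA; simp at hA
  have hp' : (0 : ℝ) < p := by exact_mod_cast hp
  have hpi := Real.pi_pos
  have hQdeg : Q.natDegree = p := by
    obtain ⟨h1, h2⟩ := chebC_monic p hp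
    have h3 : (C A * Chebyshev.C ℤ p).natDegree = p := by
      rw [natDegree_C_mul hAz, h2]
    have h4 : (C A * Chebyshev.C ℤ (p : ℤ)).degree = p := by
      rw [degree_eq_natDegree, h3]
      intro h; rw [h] at h3; simp at h3; omega
    rw [hQ, natDegree_add_eq_left_of_degree_lt, h3]
    rw [h4]; exact hdR
  have hQ0 : Q ≠ 0 := by
    intro h; rw [h] at hQdeg; simp at hQdeg; omega
  -- the trigonometric function
  let G : ℝ → ℝ := fun θ => Q.eval₂ (Int.castRingHom ℝ) (2 * Real.cos θ)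
  have hG : ∀ θ, G θ = A * (2 * Real.cos (p * θ)) + R.eval₂ (Int.castRingHom ℝ) (2 * Real.cos θ) := by
    intro θ
    simp only [G, hQ, eval₂_add, eval₂_mul, eval₂_C, chebC_eval]
    simp
  have hGc : Continuous G := by
    have : G = fun θ => (Q.map (Int.castRingHom ℝ)).eval (2 * Real.cos θ) := by
      funext θ; rw [eval_map]
    rw [this]
    exact (Q.map (Int.castRingHom ℝ)).continuous.comp (by fun_prop)
  have hcos2 : ∀ θ : ℝ, |2 * Real.cos θ| ≤ 2 := by
    intro θ
    rw [abs_mul, abs_two]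
    have := Real.abs_cos_le_one θ
    linarith
  have hsign : ∀ k : ℕ, 0 < (-1 : ℝ) ^ k * G (k * Real.pi / p) := by
    intro k
    have h1 : (p : ℝ) * (k * Real.pi / p) = k * Real.pi := by field_simp
    rw [hG, h1, Real.cos_nat_mul_pi, mul_add]
    have h2 : (-1 : ℝ) ^ k * (A * (2 * (-1) ^ k)) = 2 * A := by
      have : (-1 : ℝ) ^ k * (-1) ^ k = 1 := by
        rw [← mul_pow]; norm_num
      calc _ = 2 * A * ((-1 : ℝ) ^ k * (-1) ^ k) := by ring
        _ = _ := by rw [this, mul_one]
    rw [h2]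
    have h3 := hR (2 * Real.cos (k * Real.pi / p)) (hcos2 _)
    have h4 : |(-1 : ℝ) ^ k * R.eval₂ (Int.castRingHom ℝ) (2 * Real.cos (k * Real.pi / p))| < 2 * A := by
      rw [abs_mul, abs_pow, abs_neg, abs_one, one_pow, one_mul]; exact h3
    have h5 := (abs_lt.mp h4).1
    linarith
  have hroot : ∀ k : ℕ, ∃ θ ∈ Set.Ioo ((k : ℝ) * Real.pi / p) (((k + 1 : ℕ) : ℝ) * Real.pi / p),
      G θ = 0 := by
    intro k
    have h1 := hsign k
    have h2 := hsign (k + 1)
    have hlt : (k : ℝ) * Real.pi / p < ((k + 1 : ℕ) : ℝ) * Real.pi / p := by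
      apply div_lt_div_of_pos_right _ hp'
      apply mul_lt_mul_of_pos_right _ hpi
      push_cast; linarith
    rcases Nat.even_or_odd k with he | ho
    · rw [he.neg_one_pow, one_mul] at h1
      rw [he.add_one.neg_one_pow, neg_one_mul, neg_pos] at h2
      have := intermediate_value_Ioo' hlt.le (f := G) hGc.continuousOn
      obtain ⟨θ, hθ, hθ2⟩ := this ⟨h2, h1⟩
      exact ⟨θ, hθ, hθ2⟩
    · rw [ho.neg_one_pow, neg_one_mul, neg_pos] at h1
      rw [ho.add_one.neg_one_pow, one_mul] at h2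
      have := intermediate_value_Ioo hlt.le (f := G) hGc.continuousOn
      obtain ⟨θ, hθ, hθ2⟩ := this ⟨h1, h2⟩
      exact ⟨θ, hθ, hθ2⟩
  choose θ hθ hθ0 using hroot
  have hmono : StrictMono θ := by
    apply strictMono_nat_of_lt_succ
    intro k
    exact (hθ k).2.trans (hθ (k + 1)).1
  have hθpos : ∀ k, 0 < θ k := by
    intro k
    refine lt_of_le_of_lt ?_ (hθ k).1
    positivity
  have hθlt : ∀ k, k < p → θ k < Real.pi := by
    intro k hk
    refine lt_of_lt_of_le (hθ k).2 ?_
    rw [div_le_iff₀ hp', mul_comm]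
    apply mul_le_mul_of_nonneg_left _ hpi.le
    exact_mod_cast hk
  -- the finite set of roots
  let S : Finset ℂ := (Finset.range p).image (fun k => (((2 * Real.cos (θ k) : ℝ)) : ℂ))
  have hScard : S.card = p := by
    rw [Finset.card_image_of_injOn, Finset.card_range]
    intro i hi j hj hij
    simp only [Finset.coe_range, Set.mem_Iio] at hi hj
    have h1 : Real.cos (θ i) = Real.cos (θ j) := by
      have := Complex.ofReal_injective hij
      linarith
    exact hmono.injective (Real.injOn_cos ⟨(hθpos i).le, (hθlt i hi).le⟩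
      ⟨(hθpos j).le, (hθlt j hj).le⟩ h1)
  have hQC0 : Q.map (algebraMap ℤ ℂ) ≠ 0 :=
    (Polynomial.map_ne_zero_iff (algebraMap ℤ ℂ).injective_int).mpr hQ0
  have hSsub : S ⊆ (Q.map (algebraMap ℤ ℂ)).roots.toFinset := by
    intro w hw
    obtain ⟨k, -, rfl⟩ := Finset.mem_image.mp hw
    rw [Multiset.mem_toFinset, mem_roots hQC0, IsRoot.def, eval_map]
    have h1 := hθ0 k
    simp only [G] at h1
    have h2 := congrArg (algebraMap ℝ ℂ) h1
    rw [map_zero, hom_eval₂] at h2
    rw [← h2]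
    congr 1
  have hcard : (Q.map (algebraMap ℤ ℂ)).roots.toFinset.card ≤ S.card := by
    rw [hScard]
    refine (Multiset.toFinset_card_le _).trans ((card_roots' _).trans ?_)
    rw [natDegree_map_eq_of_injective (algebraMap ℤ ℂ).injective_int, hQdeg]
  have hSeq := Finset.eq_of_subset_of_card_le hSsub hcard
  have hzS : z ∈ S := by
    rw [hSeq, Multiset.mem_toFinset, mem_roots hQC0, IsRoot.def, eval_map]
    exact hz
  obtain ⟨k, hk, rfl⟩ := Finset.mem_image.mp hzS
  refine ⟨2 * Real.cos (θ k), rfl, ?_⟩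
  have hk' := Finset.mem_range.mp hk
  rw [abs_mul, abs_two]
  have : |Real.cos (θ k)| < 1 := by
    rw [abs_lt]
    constructor
    · have := Real.cos_lt_cos_of_nonneg_of_le_pi (hθpos k).le le_rfl (hθlt k hk')
      rwa [Real.cos_pi] at this
    · have := Real.cos_lt_cos_of_nonneg_of_le_pi le_rfl (hθlt k hk').le (hθpos k)
      rwa [Real.cos_zero] at this
  linarith

end Pool.Agent.H29.Bogo
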